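import Mathlib
import Pool.Agent.Y734.Abs.Defs

/-!
# The abstract data of a quadratic point, without genericity
-/

set_option autoImplicit false

namespace Pool.Agent.Y734.B

open MvPolynomial

/-- The data of a point of degree two (not assumed generic): `P`, `P'` are the point and its
conjugate, `V` is the set of places, `Lev v k y a` says that `y`, a form of degree `k` in the entries of the matrix, has
weight at least `a` at `v`, and `LP v G a`, `LP' v G a` say that the linear form `G` has weight at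
least `a` at `v` at the two points. -/
structure HD (V : Type) [Fintype V] {q : ℕ} (H : Fin q → Fin 3 → ℚ) (Ω : Type) [Field Ω]
    [Algebra ℚ Ω] where
  P : Fin 3 → Ω
  P' : Fin 3 → Ω
  c : Ω
  c_ne : c ≠ 0
  conj : ∀ G : Fin 3 → ℚ, lf P G = 0 ↔ lf P' G = 0
  H_ne : ∀ i, lf P (H i) ≠ 0
  Lev : V → ℕ → Ω → ℝ → Prop
  lev_one : ∀ v, Lev v 0 1 0
  lev_mul : ∀ v k l x y a b, Lev v k x a → Lev v l y b → Lev v (k + l) (x * y) (a + b)
  lev_mem : ∀ v y, y ∈ A1 c P P' → Lev v 1 y 0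
  LP : V → (Fin 3 → ℚ) → ℝ → Prop
  LP' : V → (Fin 3 → ℚ) → ℝ → Prop
  lp_zero : ∀ v G, LP v G 0
  lp_zero' : ∀ v G, LP' v G 0
  lp_lin : ∀ v G G' (r s : ℚ) a, LP v G a → LP v G' a → LP v (r • G + s • G') a
  lp_lin' : ∀ v G G' (r s : ℚ) a, LP' v G a → LP' v G' a → LP' v (r • G + s • G') a
  lp_mono : ∀ v G a b, b ≤ a → LP v G a → LP v G b
  lp_mono' : ∀ v G a b, b ≤ a → LP' v G a → LP' v G b
  lp_three : ∀ v (G : Fin 3 → Fin 3 → ℚ) a, LinearIndependent ℚ G → (∀ i, LP v (G i) a) → a ≤ 0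
  lp_three' : ∀ v (G : Fin 3 → Fin 3 → ℚ) a, LinearIndependent ℚ G → (∀ i, LP' v (G i) a) → a ≤ 0
  lp_null : ∀ v G a, lf P G = 0 → LP v G a
  lp_null' : ∀ v G a, lf P' G = 0 → LP' v G a
  lp_quad : ∀ v G G' (κ₁ κ₂ : ℚ) a, lf P G ^ 2 + algebraMap ℚ Ω κ₁ * (lf P G * lf P G') +
    algebraMap ℚ Ω κ₂ * lf P G' ^ 2 = 0 → LP v G' a → LP v G a
  lp_quad' : ∀ v G G' (κ₁ κ₂ : ℚ) a, lf P' G ^ 2 + algebraMap ℚ Ω κ₁ * (lf P' G * lf P' G') +
    algebraMap ℚ Ω κ₂ * lf P' G' ^ 2 = 0 → LP' v G' a → LP' v G a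
  pair : ∀ v G G' a a' b b', LP v G a → LP' v G a' → LP v G' b → LP' v G' b' →
    Lev v 1 (bil c P P' G G') (min (a + b') (b + a'))
  α : V → Fin q → ℝ
  α' : V → Fin q → ℝ
  α_nonneg : ∀ v i, 0 ≤ α v i
  α_nonneg' : ∀ v i, 0 ≤ α' v i
  lp_α : ∀ v i, LP v (H i) (α v i)
  lp_α' : ∀ v i, LP' v (H i) (α' v i)
  sst : ∀ (k : ℕ) (W : Submodule ℚ Ω), 1 ≤ k → W ≤ A1 c P P' ^ k → ∀ (ι : V → Type)
    [∀ v, Fintype (ι v)] (b : ∀ v, ι v → Ω) (w : ∀ v, ι v → ℝ),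
    (∀ v, Fintype.card (ι v) = Module.finrank ℚ W) → (∀ v, LinearIndependent ℚ (b v)) →
    (∀ v i, b v i ∈ W) → (∀ v i, Lev v k (b v i) (w v i)) →
    ∑ v, ∑ i, w v i ≤ k * Module.finrank ℚ W

/-- exchange of the point and its conjugate -/
def HD.swap {V : Type} [Fintype V] {q : ℕ} {H : Fin q → Fin 3 → ℚ} {Ω : Type} [Field Ω]
    [Algebra ℚ Ω] (D : HD V H Ω) : HD V H Ω where
  P := D.P'
  P' := D.P
  c := D.c
  c_ne := D.c_ne
  conj := fun G => (D.conj G).symm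
  H_ne := fun i h => D.H_ne i ((D.conj _).2 h)
  Lev := D.Lev
  lev_one := D.lev_one
  lev_mul := D.lev_mul
  lev_mem := fun v y hy => D.lev_mem v y (by rwa [A1_swap] at hy)
  LP := D.LP'
  LP' := D.LP
  lp_zero := D.lp_zero'
  lp_zero' := D.lp_zero
  lp_lin := D.lp_lin'
  lp_lin' := D.lp_lin
  lp_mono := D.lp_mono'
  lp_mono' := D.lp_mono
  lp_three := D.lp_three'
  lp_three' := D.lp_three
  lp_null := D.lp_null'
  lp_null' := D.lp_null
  lp_quad := D.lp_quad'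
  lp_quad' := D.lp_quad
  pair := fun v G G' a a' b b' h1 h2 h3 h4 => by
    rw [bil_swap]
    have := D.pair v G G' a' a b' b h2 h1 h4 h3
    rwa [min_comm, add_comm a b', add_comm b a']
  α := D.α'
  α' := D.α
  α_nonneg := D.α_nonneg'
  α_nonneg' := D.α_nonneg
  lp_α := D.lp_α'
  lp_α' := D.lp_α
  sst := fun k W hk hW => D.sst k W hk (by rwa [A1_swap] at hW)

/-- the pairs of lines of `H` whose common point is on the line `ℓ` -/
def dbl {q : ℕ} (H : Fin q → Fin 3 → ℚ) (ℓ : Fin 3 → ℚ) : Finset (Fin q × Fin q) :=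
  Finset.univ.filter fun p => p.1 < p.2 ∧ Matrix.det (Matrix.of ![H p.1, H p.2, ℓ]) = 0

/-- The abstract main theorem: every rational line through `P` contains at most two double points
of `D`. -/
def AbsStmt2 : Prop :=
  ∀ (V : Type) [Fintype V] (q : ℕ) (_ : 4 ≤ q) (H : Fin q → Fin 3 → ℚ) (_ : GenPos H) (Ω : Type)
    [Field Ω] [Algebra ℚ Ω] (D : HD V H Ω)
    (_ : ∀ ℓ : Fin 3 → ℚ, ℓ ≠ 0 → lf D.P ℓ = 0 → (dbl H ℓ).card ≤ 2),
    ∑ v, ∑ i, (D.α v i + D.α' v i) ≤ 6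

end Pool.Agent.Y734.B
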