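import Mathlib
import Pool.Agent.Y734.Abs.Loc
import Pool.Agent.Y734.B.Defs

/-!
# The two largest weights at a place, and the easy bound for `finrank A1 ≤ 3`
-/

set_option autoImplicit false

namespace Pool.Agent.Y734.B

open MvPolynomial

section

variable {V : Type} [Fintype V] {q : ℕ} {H : Fin q → Fin 3 → ℚ} {Ω : Type} [Field Ω] [Algebra ℚ Ω]

/-- there are independent elements of `A1` of total weight at least `T` at `v` -/
def Tot (D : HD V H Ω) (v : V) (T : ℝ) : Prop :=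
  ∃ (n : ℕ) (b : Fin n → Ω) (w : Fin n → ℝ), LinearIndependent ℚ b ∧
    (∀ i, b i ∈ A1 D.c D.P D.P') ∧ (∀ i, D.Lev v 1 (b i) (w i)) ∧ T ≤ ∑ i, w i

lemma sst1 (D : HD V H Ω) (T : V → ℝ) (h : ∀ v, Tot D v (T v)) :
    ∑ v, T v ≤ Module.finrank ℚ (A1 D.c D.P D.P') := by
  classical
  choose n b w hb hmem hlev hT using h
  set A := A1 D.c D.P D.P' with hA
  let b' : ∀ v, Fin (n v) → A := fun v i => ⟨b v i, hmem v i⟩
  have hb' : ∀ v, LinearIndependent ℚ (b' v) := fun v =>
    LinearIndependent.of_comp A.subtype (hb v)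
  let B : ∀ v, Module.Basis (Fin (n v) ⊕ Module.Basis.sumExtendIndex (hb' v)) ℚ A :=
    fun v => Module.Basis.sumExtend (hb' v)
  have hfin : ∀ v, Finite (Module.Basis.sumExtendIndex (hb' v)) := fun v => by
    have := Module.Finite.finite_basis (B v)
    exact Finite.sum_right (Fin (n v))
  have : ∀ v, Fintype (Module.Basis.sumExtendIndex (hb' v)) := fun v =>
    Fintype.ofFinite _
  have hBl : ∀ v i, B v (Sum.inl i) = b' v i := fun v i => by
    simp only [B, Module.Basis.sumExtend, Module.Basis.reindex_apply,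
      Module.Basis.extend_apply_self]
    rfl
  have key := D.sst 1 A le_rfl (by rw [pow_one])
    (fun v => Fin (n v) ⊕ Module.Basis.sumExtendIndex (hb' v))
    (fun v i => (B v i : Ω)) (fun v => Sum.elim (w v) 0)
    (fun v => by rw [Module.finrank_eq_card_basis (B v)])
    (fun v => by
      have := (B v).linearIndependent.map' A.subtype (Submodule.ker_subtype _)
      exact this)
    (fun v i => (B v i).2) (fun v i => by
      rcases i with i | i
      · rw [hBl]; exact hlev v i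
      · exact D.lev_mem v _ (B v _).2)
  rw [Nat.cast_one, one_mul] at key
  refine le_trans (Finset.sum_le_sum fun v _ => ?_) key
  refine (hT v).trans (le_of_eq ?_)
  simp

/-- the two largest weights at the two points: `p`, `r` for `P`, `s`, `t` for `P'` -/
structure Top (D : HD V H Ω) (v : V) (p r s t : Fin q) : Prop where
  hpr : p ≠ r
  hst : s ≠ t
  le : D.α v r ≤ D.α v p
  le' : D.α' v t ≤ D.α' v s
  zero : ∀ i, i ≠ p → i ≠ r → D.α v i = 0
  zero' : ∀ i, i ≠ s → i ≠ t → D.α' v i = 0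
  sum : ∑ i, (D.α v i + D.α' v i) = D.α v p + D.α v r + (D.α' v s + D.α' v t)

lemma Top.swap {D : HD V H Ω} {v : V} {p r s t : Fin q} (h : Top D v p r s t) :
    Top D.swap v s t p r where
  hpr := h.hst
  hst := h.hpr
  le := h.le'
  le' := h.le
  zero := h.zero'
  zero' := h.zero
  sum := by
    show ∑ i, (D.α' v i + D.α v i) = D.α' v s + D.α' v t + (D.α v p + D.α v r)
    rw [add_comm (D.α' v s + D.α' v t), ← h.sum]
    exact Finset.sum_congr rfl fun i _ => add_comm _ _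

lemma exists_top (hq : 4 ≤ q) (hH : GenPos H) (D : HD V H Ω) (v : V) :
    ∃ p r s t, Top D v p r s t := by
  have key : ∀ D : HD V H Ω, ∃ p r : Fin q, p ≠ r ∧ D.α v r ≤ D.α v p ∧
      (∀ i, i ≠ p → i ≠ r → D.α v i = 0) ∧ ∑ i, D.α v i = D.α v p + D.α v r := by
    intro D
    refine top_two (by omega) (D.α v) (D.α_nonneg v) fun i j k hij hik hjk a h1 h2 h3 => ?_
    refine D.lp_three v ![H i, H j, H k] a (hH i j k hij hik hjk) fun l => ?_
    fin_cases l
    · exact D.lp_mono v _ _ _ h1 (D.lp_α v i)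
    · exact D.lp_mono v _ _ _ h2 (D.lp_α v j)
    · exact D.lp_mono v _ _ _ h3 (D.lp_α v k)
  obtain ⟨p, r, h1, h2, h3, h4⟩ := key D
  obtain ⟨s, t, h1', h2', h3', h4'⟩ := key D.swap
  refine ⟨p, r, s, t, ⟨h1, h1', h2, h2', h3, h3', ?_⟩⟩
  rw [Finset.sum_add_distrib, h4]
  congr 1

lemma lp_comb (D : HD V H Ω) (v : V) {G G' K : Fin 3 → ℚ} {a : ℝ} (h : D.LP v G a)
    (h' : D.LP v G' a) (hK : ∃ r s : ℚ, K = r • G + s • G') : D.LP v K a := by
  obtain ⟨r, s, rfl⟩ := hK
  exact D.lp_lin v _ _ _ _ _ h h'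

lemma lev_self (D : HD V H Ω) (v : V) (i : Fin q) :
    D.Lev v 1 (bil D.c D.P D.P' (H i) (H i)) (D.α v i + D.α' v i) := by
  have := D.pair v (H i) (H i) _ _ _ _ (D.lp_α v i) (D.lp_α' v i) (D.lp_α v i) (D.lp_α' v i)
  rwa [min_self] at this

lemma lev_of_P (D : HD V H Ω) (v : V) {G G' : Fin 3 → ℚ} {a : ℝ} (h : D.LP v G a)
    (h' : D.LP v G' a) : D.Lev v 1 (bil D.c D.P D.P' G G') a := by
  have := D.pair v G G' _ _ _ _ h (D.lp_zero' v G) h' (D.lp_zero' v G')
  simpa using this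

lemma lev_of_P' (D : HD V H Ω) (v : V) {G G' : Fin 3 → ℚ} {a : ℝ} (h : D.LP' v G a)
    (h' : D.LP' v G' a) : D.Lev v 1 (bil D.c D.P D.P' G G') a := by
  have := D.pair v G G' _ _ _ _ (D.lp_zero v G) h (D.lp_zero v G') h'
  simpa using this

/-- weight from one element -/
lemma tot_one (D : HD V H Ω) (v : V) {y : Ω} (hy : y ≠ 0) (hm : y ∈ A1 D.c D.P D.P') {a T : ℝ}
    (h : D.Lev v 1 y a) (hT : T ≤ a) : Tot D v T := by
  refine ⟨1, fun _ => y, fun _ => a, ?_, fun _ => hm, fun _ => h, by simpa using hT⟩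
  exact LinearIndependent.of_subsingleton (0 : Fin 1) hy

/-- weight from two elements -/
lemma tot_two (D : HD V H Ω) (v : V) {y z : Ω} (hyz : LinearIndependent ℚ ![y, z])
    (hy : y ∈ A1 D.c D.P D.P') (hz : z ∈ A1 D.c D.P D.P') {a b T : ℝ}
    (h : D.Lev v 1 y a) (h' : D.Lev v 1 z b) (hT : T ≤ a + b) : Tot D v T := by
  refine ⟨2, ![y, z], ![a, b], hyz, fun i => ?_, fun i => ?_, by simpa [Fin.sum_univ_two] using hT⟩
  · fin_cases i
    · exact hy
    · exact hz
  · fin_cases i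
    · exact h
    · exact h'

/-- the point is on no rational line -/
def NoLine (D : HD V H Ω) : Prop := ∀ G : Fin 3 → ℚ, G ≠ 0 → lf D.P G ≠ 0

/-- the values at every two independent forms span a space of dimension at least two -/
def NoPair (D : HD V H Ω) : Prop :=
  ∀ G G' : Fin 3 → ℚ, LinearIndependent ℚ ![G, G'] → 2 ≤ Module.finrank ℚ (Submodule.span ℚ
    {bil D.c D.P D.P' G G, bil D.c D.P D.P' G G', bil D.c D.P D.P' G' G'})

lemma NoLine.swap {D : HD V H Ω} (h : NoLine D) : NoLine D.swap :=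
  fun G hG h0 => h G hG ((D.conj G).2 h0)

lemma NoPair.swap {D : HD V H Ω} (h : NoPair D) : NoPair D.swap := by
  intro G G' hG
  have := h G G' hG
  show 2 ≤ Module.finrank ℚ (Submodule.span ℚ
    {bil D.c D.P' D.P G G, bil D.c D.P' D.P G G', bil D.c D.P' D.P G' G'})
  rwa [bil_swap D.c D.P D.P', bil_swap D.c D.P D.P', bil_swap D.c D.P D.P']

/-- the value at a form which does not vanish at the point -/
lemma bil_ne (D : HD V H Ω) {G : Fin 3 → ℚ} (h : lf D.P G ≠ 0) : bil D.c D.P D.P' G G ≠ 0 := by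
  have h20 : (2 : Ω) ≠ 0 := by
    have : CharZero Ω := algebraRat.charZero Ω
    exact two_ne_zero
  have h' : lf D.P' G ≠ 0 := fun h0 => h ((D.conj G).2 h0)
  have e : bil D.c D.P D.P' G G = 2 * (D.c * (lf D.P G * lf D.P' G)) := by unfold bil; ring
  rw [e]
  exact mul_ne_zero h20 (mul_ne_zero D.c_ne (mul_ne_zero h h'))

lemma bil_H_ne (D : HD V H Ω) (i : Fin q) : bil D.c D.P D.P' (H i) (H i) ≠ 0 :=
  bil_ne D (D.H_ne i)

/-- the bound used for `finrank A1 ≤ 3` -/
lemma tot_half (hq : 4 ≤ q) (hH : GenPos H) (D : HD V H Ω) (hNP : NoPair D) (v : V) :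
    Tot D v ((∑ i, (D.α v i + D.α' v i)) / 2) := by
  have aux : ∀ (D : HD V H Ω) (_ : NoPair D) (p r s t : Fin q), Top D v p r s t →
      D.α' v t ≤ D.α v r → Tot D v ((∑ i, (D.α v i + D.α' v i)) / 2) := by
    intro D hNP p r s t h hle
    have hind := linInd_pair hH hq h.hpr
    have hself : ∀ i, bil D.c D.P D.P' (H i) (H i) ≠ 0 := bil_H_ne D
    have hfin := hNP _ _ hind
    have hlevr : ∀ z, (z = bil D.c D.P D.P' (H p) (H p) ∨ z = bil D.c D.P D.P' (H p) (H r) ∨
        z = bil D.c D.P D.P' (H r) (H r)) → D.Lev v 1 z (D.α v r) ∧ z ∈ A1 D.c D.P D.P' := by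
      have hp : D.LP v (H p) (D.α v r) := D.lp_mono v _ _ _ h.le (D.lp_α v p)
      have hr : D.LP v (H r) (D.α v r) := D.lp_α v r
      rintro z (rfl | rfl | rfl)
      · exact ⟨lev_of_P D v hp hp, bil_mem _ _ _ _ _⟩
      · exact ⟨lev_of_P D v hp hr, bil_mem _ _ _ _ _⟩
      · exact ⟨lev_of_P D v hr hr, bil_mem _ _ _ _ _⟩
    have main : ∀ i, D.α v p + D.α' v s ≤ 2 * (D.α v i + D.α' v i) →
        Tot D v ((∑ i, (D.α v i + D.α' v i)) / 2) := by
      intro i hi
      obtain ⟨z, hz, hind⟩ := exists_indep (hself i) hfin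
      refine tot_two D v hind (bil_mem _ _ _ _ _) (hlevr z hz).2 (lev_self D v i) (hlevr z hz).1 ?_
      rw [h.sum]
      linarith
    have hp0 := D.α_nonneg' v p
    have hs0 := D.α_nonneg v s
    rcases le_total (D.α v p) (D.α' v s) with h1 | h1
    · exact main s (by linarith)
    · exact main p (by linarith)
  obtain ⟨p, r, s, t, h⟩ := exists_top hq hH D v
  rcases le_total (D.α' v t) (D.α v r) with h1 | h1
  · exact aux D hNP p r s t h h1
  · have h2 := aux D.swap hNP.swap s t p r h.swap h1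
    obtain ⟨n, b, w, hb, hm, hl, hT⟩ := h2
    refine ⟨n, b, w, hb, fun i => ?_, hl, ?_⟩
    · have := hm i
      rwa [← A1_swap]
    · refine le_trans (le_of_eq ?_) hT
      congr 1
      exact Finset.sum_congr rfl fun i _ => add_comm _ _

/-- the case `finrank A1 ≤ 3` -/
lemma abs_three (hq : 4 ≤ q) (hH : GenPos H) (D : HD V H Ω) (hNP : NoPair D)
    (h3 : Module.finrank ℚ (A1 D.c D.P D.P') ≤ 3) : ∑ v, ∑ i, (D.α v i + D.α' v i) ≤ 6 := by
  have h := sst1 D _ (fun v => tot_half hq hH D hNP v)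
  rw [← Finset.sum_div] at h
  have h3' : (Module.finrank ℚ (A1 D.c D.P D.P') : ℝ) ≤ 3 := by exact_mod_cast h3
  linarith

end

end Pool.Agent.Y734.B
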