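import Mathlib
import Pool.Agent.Y734.Abs.Com
import Pool.Agent.Y734.B.Loc

/-!
# A basis adapted to both points
-/

set_option autoImplicit false

namespace Pool.Agent.Y734.B

open MvPolynomial

section

variable {V : Type} [Fintype V] {q : ℕ} {H : Fin q → Fin 3 → ℚ} {Ω : Type} [Field Ω] [Algebra ℚ Ω]

/-- a basis with weights at both points; the middle vector has a small square -/
structure ComB (D : HD V H Ω) (v : V) (p s : Fin q) (f : Fin 3 → Fin 3 → ℚ) (u u' : Fin 3 → ℝ) :
    Prop where
  ind : LinearIndependent ℚ f
  lp : ∀ i, D.LP v (f i) (u i)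
  lp' : ∀ i, D.LP' v (f i) (u' i)
  nn : ∀ i, 0 ≤ u i
  nn' : ∀ i, 0 ≤ u' i
  tot : ∑ i, (D.α v i + D.α' v i) ≤ (u 0 + u' 0) + (u 1 + u' 1) + (u 2 + u' 2)
  mid : u 1 + u' 1 ≤ min (u 0 + u' 1) (u 1 + u' 0) + min (u 0 + u' 2) (u 2 + u' 0) +
    min (u 1 + u' 2) (u 2 + u' 1)
  eq : p = s → u 2 + u' 2 ≤ min (u 0 + u' 1) (u 1 + u' 0) + min (u 0 + u' 2) (u 2 + u' 0) +
    min (u 1 + u' 2) (u 2 + u' 1)
  ne : p ≠ s → f 0 = H p ∧ f 2 = H s ∧ u 0 + u' 0 ≤ D.α v p + D.α' v p ∧
    u 2 + u' 2 ≤ D.α v s + D.α' v s

/-- existence of the common basis -/
lemma exists_com (hq : 4 ≤ q) (hH : GenPos H) (D : HD V H Ω) (v : V) {p r s t : Fin q}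
    (h : Top D v p r s t) : ∃ f u u', ComB D v p s f u u' := by
  have ha := h.le
  have ha' := h.le'
  have hb0 := D.α_nonneg v r
  have hb0' := D.α_nonneg' v t
  have hp0 := D.α_nonneg v p
  have hs0' := D.α_nonneg' v s
  by_cases hps : p = s
  · by_cases hrt : r = t
    · obtain ⟨l, hlp, hlr⟩ := exists_third hq p r
      refine ⟨![H p, H r, H l], ![D.α v p, D.α v r, 0], ![D.α' v s, D.α' v t, 0],
        ⟨hH p r l h.hpr hlp.symm hlr.symm, ?_, ?_, ?_, ?_, ?_, ?_, ?_, ?_⟩⟩
      · intro i; fin_cases i
        · exact D.lp_α v p
        · exact D.lp_α v r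
        · exact D.lp_zero v _
      · intro i; fin_cases i
        · subst hps; exact D.lp_α' v _
        · subst hrt; exact D.lp_α' v _
        · exact D.lp_zero' v _
      · intro i; fin_cases i
        · exact hp0
        · exact hb0
        · exact le_rfl
      · intro i; fin_cases i
        · exact hs0'
        · exact hb0'
        · exact le_rfl
      · rw [h.sum]
        show _ ≤ D.α v p + D.α' v s + (D.α v r + D.α' v t) + (0 + 0)
        linarith
      · show D.α v r + D.α' v t ≤ min (D.α v p + D.α' v t) (D.α v r + D.α' v s) +
          min (D.α v p + 0) (0 + D.α' v s) + min (D.α v r + 0) (0 + D.α' v t)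
        have h1 : D.α v r + D.α' v t ≤ min (D.α v p + D.α' v t) (D.α v r + D.α' v s) :=
          le_min (by linarith) (by linarith)
        have h2 : 0 ≤ min (D.α v p + 0) (0 + D.α' v s) := le_min (by linarith) (by linarith)
        have h3 : 0 ≤ min (D.α v r + 0) (0 + D.α' v t) := le_min (by linarith) (by linarith)
        linarith
      · intro _
        show 0 + 0 ≤ min (D.α v p + D.α' v t) (D.α v r + D.α' v s) +
          min (D.α v p + 0) (0 + D.α' v s) + min (D.α v r + 0) (0 + D.α' v t)
        have h1 : 0 ≤ min (D.α v p + D.α' v t) (D.α v r + D.α' v s) :=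
          le_min (by linarith) (by linarith)
        have h2 : 0 ≤ min (D.α v p + 0) (0 + D.α' v s) := le_min (by linarith) (by linarith)
        have h3 : 0 ≤ min (D.α v r + 0) (0 + D.α' v t) := le_min (by linarith) (by linarith)
        linarith
      · intro hne; exact absurd hps hne
    · have htp : t ≠ p := by rw [hps]; exact h.hst.symm
      refine ⟨![H p, H r, H t], ![D.α v p, D.α v r, 0], ![D.α' v s, 0, D.α' v t],
        ⟨hH p r t h.hpr htp.symm hrt, ?_, ?_, ?_, ?_, ?_, ?_, ?_, ?_⟩⟩
      · intro i; fin_cases i
        · exact D.lp_α v p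
        · exact D.lp_α v r
        · exact D.lp_zero v _
      · intro i; fin_cases i
        · subst hps; exact D.lp_α' v _
        · exact D.lp_zero' v _
        · exact D.lp_α' v t
      · intro i; fin_cases i
        · exact hp0
        · exact hb0
        · exact le_rfl
      · intro i; fin_cases i
        · exact hs0'
        · exact le_rfl
        · exact hb0'
      · rw [h.sum]
        show _ ≤ D.α v p + D.α' v s + (D.α v r + 0) + (0 + D.α' v t)
        linarith
      · show D.α v r + 0 ≤ min (D.α v p + 0) (D.α v r + D.α' v s) +
          min (D.α v p + D.α' v t) (0 + D.α' v s) + min (D.α v r + D.α' v t) (0 + 0)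
        have h1 : D.α v r ≤ min (D.α v p + 0) (D.α v r + D.α' v s) :=
          le_min (by linarith) (by linarith)
        have h2 : 0 ≤ min (D.α v p + D.α' v t) (0 + D.α' v s) :=
          le_min (by linarith) (by linarith)
        have h3 : 0 ≤ min (D.α v r + D.α' v t) (0 + 0) := le_min (by linarith) (by linarith)
        linarith
      · intro _
        show 0 + D.α' v t ≤ min (D.α v p + 0) (D.α v r + D.α' v s) +
          min (D.α v p + D.α' v t) (0 + D.α' v s) + min (D.α v r + D.α' v t) (0 + 0)
        have h1 : 0 ≤ min (D.α v p + 0) (D.α v r + D.α' v s) :=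
          le_min (by linarith) (by linarith)
        have h2 : D.α' v t ≤ min (D.α v p + D.α' v t) (0 + D.α' v s) :=
          le_min (by linarith) (by linarith)
        have h3 : 0 ≤ min (D.α v r + D.α' v t) (0 + 0) := le_min (by linarith) (by linarith)
        linarith
      · intro hne; exact absurd hps hne
  · by_cases hrs : r = s
    · by_cases htp : t = p
      · obtain ⟨l, hlp, hls⟩ := exists_third hq p s
        refine ⟨![H p, H l, H s], ![D.α v p, 0, D.α v r], ![D.α' v t, 0, D.α' v s],
          ⟨hH p l s hlp.symm hps hls, ?_, ?_, ?_, ?_, ?_, ?_, ?_, ?_⟩⟩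
        · intro i; fin_cases i
          · exact D.lp_α v p
          · exact D.lp_zero v _
          · subst hrs; exact D.lp_α v _
        · intro i; fin_cases i
          · subst htp; exact D.lp_α' v _
          · exact D.lp_zero' v _
          · exact D.lp_α' v s
        · intro i; fin_cases i
          · exact hp0
          · exact le_rfl
          · exact hb0
        · intro i; fin_cases i
          · exact hb0'
          · exact le_rfl
          · exact hs0'
        · rw [h.sum]
          show _ ≤ D.α v p + D.α' v t + (0 + 0) + (D.α v r + D.α' v s)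
          linarith
        · show (0 : ℝ) + 0 ≤ min (D.α v p + 0) (0 + D.α' v t) +
            min (D.α v p + D.α' v s) (D.α v r + D.α' v t) + min (0 + D.α' v s) (D.α v r + 0)
          have h1 : 0 ≤ min (D.α v p + 0) (0 + D.α' v t) := le_min (by linarith) (by linarith)
          have h2 : 0 ≤ min (D.α v p + D.α' v s) (D.α v r + D.α' v t) :=
            le_min (by linarith) (by linarith)
          have h3 : 0 ≤ min (0 + D.α' v s) (D.α v r + 0) := le_min (by linarith) (by linarith)
          linarith
        · intro he; exact absurd he hps
        · intro _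
          refine ⟨rfl, rfl, ?_, ?_⟩
          · show D.α v p + D.α' v t ≤ _
            rw [htp]
          · show D.α v r + D.α' v s ≤ _
            rw [hrs]
      · refine ⟨![H p, H t, H s], ![D.α v p, 0, D.α v r], ![0, D.α' v t, D.α' v s],
          ⟨hH p t s (Ne.symm htp) hps h.hst.symm, ?_, ?_, ?_, ?_, ?_, ?_, ?_, ?_⟩⟩
        · intro i; fin_cases i
          · exact D.lp_α v p
          · exact D.lp_zero v _
          · subst hrs; exact D.lp_α v _
        · intro i; fin_cases i
          · exact D.lp_zero' v _
          · exact D.lp_α' v t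
          · exact D.lp_α' v s
        · intro i; fin_cases i
          · exact hp0
          · exact le_rfl
          · exact hb0
        · intro i; fin_cases i
          · exact le_rfl
          · exact hb0'
          · exact hs0'
        · rw [h.sum]
          show _ ≤ D.α v p + 0 + (0 + D.α' v t) + (D.α v r + D.α' v s)
          linarith
        · show (0 : ℝ) + D.α' v t ≤ min (D.α v p + D.α' v t) (0 + 0) +
            min (D.α v p + D.α' v s) (D.α v r + 0) +
            min (0 + D.α' v s) (D.α v r + D.α' v t)
          have h1 : 0 ≤ min (D.α v p + D.α' v t) (0 + 0) := le_min (by linarith) (by linarith)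
          have h2 : 0 ≤ min (D.α v p + D.α' v s) (D.α v r + 0) :=
            le_min (by linarith) (by linarith)
          have h3 : D.α' v t ≤ min (0 + D.α' v s) (D.α v r + D.α' v t) :=
            le_min (by linarith) (by linarith)
          linarith
        · intro he; exact absurd he hps
        · intro _
          refine ⟨rfl, rfl, ?_, ?_⟩
          · show D.α v p + 0 ≤ _
            have := D.α_nonneg' v p
            linarith
          · show D.α v r + D.α' v s ≤ _
            rw [hrs]
    · by_cases htp : t = p
      · refine ⟨![H p, H r, H s], ![D.α v p, D.α v r, 0], ![D.α' v t, 0, D.α' v s],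
          ⟨hH p r s h.hpr hps hrs, ?_, ?_, ?_, ?_, ?_, ?_, ?_, ?_⟩⟩
        · intro i; fin_cases i
          · exact D.lp_α v p
          · exact D.lp_α v r
          · exact D.lp_zero v _
        · intro i; fin_cases i
          · subst htp; exact D.lp_α' v _
          · exact D.lp_zero' v _
          · exact D.lp_α' v s
        · intro i; fin_cases i
          · exact hp0
          · exact hb0
          · exact le_rfl
        · intro i; fin_cases i
          · exact hb0'
          · exact le_rfl
          · exact hs0'
        · rw [h.sum]
          show _ ≤ D.α v p + D.α' v t + (D.α v r + 0) + (0 + D.α' v s)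
          linarith
        · show D.α v r + 0 ≤ min (D.α v p + 0) (D.α v r + D.α' v t) +
            min (D.α v p + D.α' v s) (0 + D.α' v t) + min (D.α v r + D.α' v s) (0 + 0)
          have h1 : D.α v r ≤ min (D.α v p + 0) (D.α v r + D.α' v t) :=
            le_min (by linarith) (by linarith)
          have h2 : 0 ≤ min (D.α v p + D.α' v s) (0 + D.α' v t) :=
            le_min (by linarith) (by linarith)
          have h3 : 0 ≤ min (D.α v r + D.α' v s) (0 + 0) := le_min (by linarith) (by linarith)
          linarith
        · intro he; exact absurd he hps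
        · intro _
          refine ⟨rfl, rfl, ?_, ?_⟩
          · show D.α v p + D.α' v t ≤ _
            rw [htp]
          · show 0 + D.α' v s ≤ _
            have := D.α_nonneg v s
            linarith
      · obtain ⟨K, hK, ⟨a, b, hK1⟩, ⟨a', b', hK2⟩⟩ := exists_K hH h.hpr h.hst hps hrs htp
        refine ⟨![H p, K, H s], ![D.α v p, D.α v r, 0], ![0, D.α' v t, D.α' v s],
          ⟨hK, ?_, ?_, ?_, ?_, ?_, ?_, ?_, ?_⟩⟩
        · intro i; fin_cases i
          · exact D.lp_α v p
          · exact lp_comb D v (D.lp_mono v _ _ _ h.le (D.lp_α v p)) (D.lp_α v r) ⟨a, b, hK1⟩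
          · exact D.lp_zero v _
        · intro i; fin_cases i
          · exact D.lp_zero' v _
          · exact lp_comb D.swap v (D.lp_mono' v _ _ _ h.le' (D.lp_α' v s)) (D.lp_α' v t)
              ⟨a', b', hK2⟩
          · exact D.lp_α' v s
        · intro i; fin_cases i
          · exact hp0
          · exact hb0
          · exact le_rfl
        · intro i; fin_cases i
          · exact le_rfl
          · exact hb0'
          · exact hs0'
        · rw [h.sum]
          show _ ≤ D.α v p + 0 + (D.α v r + D.α' v t) + (0 + D.α' v s)
          linarith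
        · show D.α v r + D.α' v t ≤ min (D.α v p + D.α' v t) (D.α v r + 0) +
            min (D.α v p + D.α' v s) (0 + 0) + min (D.α v r + D.α' v s) (0 + D.α' v t)
          have h1 : D.α v r ≤ min (D.α v p + D.α' v t) (D.α v r + 0) :=
            le_min (by linarith) (by linarith)
          have h2 : 0 ≤ min (D.α v p + D.α' v s) (0 + 0) := le_min (by linarith) (by linarith)
          have h3 : D.α' v t ≤ min (D.α v r + D.α' v s) (0 + D.α' v t) :=
            le_min (by linarith) (by linarith)
          linarith
        · intro he; exact absurd he hps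
        · intro _
          refine ⟨rfl, rfl, ?_, ?_⟩
          · show D.α v p + 0 ≤ _
            have := D.α_nonneg' v p
            linarith
          · show 0 + D.α' v s ≤ _
            have := D.α_nonneg v s
            linarith

end

end Pool.Agent.Y734.B
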