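import Mathlib
import Pool.Agent.Y734.Abs.Five
import Pool.Agent.Y734.B.Com

/-!
# The cases `finrank A1 = 6` and `finrank A1 = 5`
-/

set_option autoImplicit false

namespace Pool.Agent.Y734.B

open MvPolynomial

section

variable {V : Type} [Fintype V] {q : ℕ} {H : Fin q → Fin 3 → ℚ} {Ω : Type} [Field Ω] [Algebra ℚ Ω]

lemma Tot.mono {D : HD V H Ω} {v : V} {T T' : ℝ} (h : Tot D v T) (hT : T' ≤ T) : Tot D v T' := by
  obtain ⟨n, b, w, hb, hm, hl, hs⟩ := h
  exact ⟨n, b, w, hb, hm, hl, hT.trans hs⟩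

lemma tot_of {D : HD V H Ω} {v : V} {ι : Type} [Fintype ι] (b : ι → Ω) (w : ι → ℝ)
    (hb : LinearIndependent ℚ b) (hm : ∀ i, b i ∈ A1 D.c D.P D.P')
    (hl : ∀ i, D.Lev v 1 (b i) (w i)) {T : ℝ} (hT : T ≤ ∑ i, w i) : Tot D v T := by
  let e := Fintype.equivFin ι
  refine ⟨Fintype.card ι, b ∘ e.symm, w ∘ e.symm, hb.comp _ e.symm.injective, fun i => hm _,
    fun i => hl _, hT.trans (le_of_eq ?_)⟩
  exact (Equiv.sum_comp e.symm w).symm

lemma lev6 {D : HD V H Ω} {v : V} {p s : Fin q} {f : Fin 3 → Fin 3 → ℚ} {u u' : Fin 3 → ℝ}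
    (h : ComB D v p s f u u') (i : Fin 6) : D.Lev v 1 (six D.c D.P D.P' f i) (w6 u u' i) := by
  have key : ∀ i j, D.Lev v 1 (bil D.c D.P D.P' (f i) (f j)) (min (u i + u' j) (u j + u' i)) :=
    fun i j => D.pair v _ _ _ _ _ _ (h.lp i) (h.lp' i) (h.lp j) (h.lp' j)
  fin_cases i
  · have := key 0 0; rw [min_self] at this; exact this
  · have := key 1 1; rw [min_self] at this; exact this
  · have := key 2 2; rw [min_self] at this; exact this
  · exact key 0 1
  · exact key 0 2
  · exact key 1 2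

lemma six_mem (D : HD V H Ω) (f : Fin 3 → Fin 3 → ℚ) (i : Fin 6) :
    six D.c D.P D.P' f i ∈ A1 D.c D.P D.P' := by
  fin_cases i <;> exact bil_mem _ _ _ _ _

lemma off_nonneg {D : HD V H Ω} {v : V} {p s : Fin q} {f : Fin 3 → Fin 3 → ℚ} {u u' : Fin 3 → ℝ}
    (h : ComB D v p s f u u') : 0 ≤ min (u 0 + u' 1) (u 1 + u' 0) +
      min (u 0 + u' 2) (u 2 + u' 0) + min (u 1 + u' 2) (u 2 + u' 1) := by
  have h0 := h.nn 0
  have h1 := h.nn 1
  have h2 := h.nn 2
  have h0' := h.nn' 0
  have h1' := h.nn' 1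
  have h2' := h.nn' 2
  have e1 : 0 ≤ min (u 0 + u' 1) (u 1 + u' 0) := le_min (by linarith) (by linarith)
  have e2 : 0 ≤ min (u 0 + u' 2) (u 2 + u' 0) := le_min (by linarith) (by linarith)
  have e3 : 0 ≤ min (u 1 + u' 2) (u 2 + u' 1) := le_min (by linarith) (by linarith)
  linarith

/-- the case `finrank A1 = 6` -/
lemma abs_six (hq : 4 ≤ q) (hH : GenPos H) (D : HD V H Ω)
    (h6 : Module.finrank ℚ (A1 D.c D.P D.P') = 6) : ∑ v, ∑ i, (D.α v i + D.α' v i) ≤ 6 := by
  have h : ∀ v, Tot D v (∑ i, (D.α v i + D.α' v i)) := by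
    intro v
    obtain ⟨p, r, s, t, ht⟩ := exists_top hq hH D v
    obtain ⟨f, u, u', hc⟩ := exists_com hq hH D v ht
    refine tot_of (six D.c D.P D.P' f) (w6 u u') ?_ (six_mem D f) (lev6 hc) ?_
    · rw [linearIndependent_iff_card_eq_finrank_span]
      unfold Set.finrank
      rw [← A1_eq_six hc.ind, h6]
      simp
    · rw [sum_w6]
      have h1 := hc.tot
      have h2 := off_nonneg hc
      linarith
  have h1 := sst1 D _ h
  rw [h6] at h1
  exact_mod_cast h1

lemma tot_drop {D : HD V H Ω} {v : V} {p s : Fin q} {f : Fin 3 → Fin 3 → ℚ} {u u' : Fin 3 → ℝ}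
    (h : ComB D v p s f u u') (h5 : Module.finrank ℚ (A1 D.c D.P D.P') = 5) (k : Fin 6)
    (hk : six D.c D.P D.P' f k ∈ Submodule.span ℚ
      (Set.range fun j : {j // j ≠ k} => six D.c D.P D.P' f j)) {T : ℝ}
    (hT : T ≤ ∑ i, w6 u u' i - w6 u u' k) : Tot D v T := by
  refine tot_of (fun j : {j // j ≠ k} => six D.c D.P D.P' f j) (fun j => w6 u u' j)
    (drop_ind h.ind h5 k hk) (fun j => six_mem D f j) (fun j => lev6 h j) (hT.trans (le_of_eq ?_))
  rw [← Finset.sum_erase_eq_sub (Finset.mem_univ k)]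
  exact Finset.sum_subtype (p := fun j => j ≠ k) (Finset.univ.erase k) (fun x => by simp)
    (w6 u u')

/-- two lines whose norms are proportional -/
def PairRel (D : HD V H Ω) (i j : Fin q) : Prop :=
  ∃ κ : ℚ, bil D.c D.P D.P' (H i) (H i) = κ • bil D.c D.P D.P' (H j) (H j)

lemma PairRel.symm {D : HD V H Ω} {i j : Fin q}
    (h : PairRel D i j) : PairRel D j i := by
  obtain ⟨κ, hκ⟩ := h
  have h0 : κ ≠ 0 := by
    rintro rfl
    rw [zero_smul] at hκ
    exact bil_H_ne D i hκ
  exact ⟨κ⁻¹, by rw [hκ, smul_smul, inv_mul_cancel₀ h0, one_smul]⟩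

lemma five_local (hq : 4 ≤ q) (hH : GenPos H) (D : HD V H Ω) (hNL : NoLine D)
    (h5 : Module.finrank ℚ (A1 D.c D.P D.P') = 5) (v : V) :
    Tot D v (∑ i, (D.α v i + D.α' v i)) ∨ ∃ i j, i ≠ j ∧ PairRel D i j ∧
      Tot D v (∑ i, (D.α v i + D.α' v i) - (D.α v i + D.α' v i)) ∧
      Tot D v (∑ i, (D.α v i + D.α' v i) - (D.α v j + D.α' v j)) := by
  obtain ⟨p, r, s, t, ht⟩ := exists_top hq hH D v
  obtain ⟨f, u, u', hc⟩ := exists_com hq hH D v ht
  set m := six D.c D.P D.P' f with hm
  have htot := hc.tot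
  have hoff := off_nonneg hc
  by_cases hd : LinearIndependent ℚ ![m 0, m 1, m 2]
  · left
    refine tot_of ![m 0, m 1, m 2] ![u 0 + u' 0, u 1 + u' 1, u 2 + u' 2] hd ?_ ?_ ?_
    · intro i
      fin_cases i
      · exact six_mem D f 0
      · exact six_mem D f 1
      · exact six_mem D f 2
    · intro i
      fin_cases i
      · exact lev6 hc 0
      · exact lev6 hc 1
      · exact lev6 hc 2
    · simp only [Fin.sum_univ_three, Matrix.cons_val_zero, Matrix.cons_val_one,
        Matrix.cons_val_two, Matrix.cons_val]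
      exact htot
  · rw [li3] at hd
    push Not at hd
    obtain ⟨β0, β1, β2, hβ, hne⟩ := hd
    have hmne : ∀ i : Fin 3, bil D.c D.P D.P' (f i) (f i) ≠ 0 := fun i =>
      bil_ne D (hNL _ (hc.ind.ne_zero i))
    have span_of : ∀ (k : Fin 6) (j : Fin 6), j ≠ k → m j ∈ Submodule.span ℚ
        (Set.range fun j : {j // j ≠ k} => m j) := fun k j hj =>
      Submodule.subset_span ⟨⟨j, hj⟩, rfl⟩
    by_cases h1 : β1 = 0
    · -- the relation is between the first and the third square
      have h02 : β0 ≠ 0 ∧ β2 ≠ 0 := by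
        rw [h1, zero_smul, add_zero] at hβ
        constructor
        · intro h0
          rw [h0, zero_smul, zero_add] at hβ
          have h2 : β2 = 0 := (smul_eq_zero.1 hβ).resolve_right (hmne 2)
          exact hne h0 h1 h2
        · intro h2
          rw [h2, zero_smul, add_zero] at hβ
          have h0 : β0 = 0 := (smul_eq_zero.1 hβ).resolve_right (hmne 0)
          exact hne h0 h1 h2
      rw [h1, zero_smul, add_zero] at hβ
      have e2 : m 2 = (-(β2⁻¹ * β0)) • m 0 := solve2 hβ h02.2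
      have e0 : m 0 = (-(β0⁻¹ * β2)) • m 2 := solve2 (by rw [add_comm]; exact hβ) h02.1
      have k2 : m 2 ∈ Submodule.span ℚ (Set.range fun j : {j // j ≠ (2 : Fin 6)} => m j) := by
        rw [e2]
        exact Submodule.smul_mem _ _ (span_of 2 0 (by decide))
      have k0 : m 0 ∈ Submodule.span ℚ (Set.range fun j : {j // j ≠ (0 : Fin 6)} => m j) := by
        rw [e0]
        exact Submodule.smul_mem _ _ (span_of 0 2 (by decide))
      by_cases hps : p = s
      · left
        refine tot_drop hc h5 2 k2 ?_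
        rw [sum_w6]
        have := hc.eq hps
        show _ ≤ _ - (u 2 + u' 2)
        linarith
      · right
        obtain ⟨hf0, hf2, hz0, hz2⟩ := hc.ne hps
        refine ⟨p, s, hps, ⟨-(β0⁻¹ * β2), ?_⟩, ?_, ?_⟩
        · have : m 0 = bil D.c D.P D.P' (f 0) (f 0) := rfl
          have h' : m 2 = bil D.c D.P D.P' (f 2) (f 2) := rfl
          rw [← hf0, ← hf2, ← this, ← h']
          exact e0
        · refine tot_drop hc h5 0 k0 ?_
          rw [sum_w6]
          show _ ≤ _ - (u 0 + u' 0)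
          linarith
        · refine tot_drop hc h5 2 k2 ?_
          rw [sum_w6]
          show _ ≤ _ - (u 2 + u' 2)
          linarith
    · left
      have e1 : m 1 = (-(β1⁻¹ * β0)) • m 0 + (-(β1⁻¹ * β2)) • m 2 := solve3 hβ h1
      have k1 : m 1 ∈ Submodule.span ℚ (Set.range fun j : {j // j ≠ (1 : Fin 6)} => m j) := by
        rw [e1]
        exact Submodule.add_mem _ (Submodule.smul_mem _ _ (span_of 1 0 (by decide)))
          (Submodule.smul_mem _ _ (span_of 1 2 (by decide)))
      refine tot_drop hc h5 1 k1 ?_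
      rw [sum_w6]
      have := hc.mid
      show _ ≤ _ - (u 1 + u' 1)
      linarith

/-- at most one pair of proportional norms -/
lemma pair_uniq (hq : 4 ≤ q) (hH : GenPos H) (D : HD V H Ω)
    (h5 : Module.finrank ℚ (A1 D.c D.P D.P') = 5) {i j k l : Fin q} (hij : i ≠ j) (hkl : k ≠ l)
    (h1 : PairRel D i j) (h2 : PairRel D k l) : i = k ∨ i = l := by
  by_contra hcon
  push Not at hcon
  obtain ⟨hik, hil⟩ := hcon
  obtain ⟨κ, hκ⟩ := h1
  obtain ⟨κ', hκ'⟩ := h2
  have hind : LinearIndependent ℚ ![H k, H l, H i] := hH k l i hkl (Ne.symm hik) (Ne.symm hil)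
  set B := bil D.c D.P D.P' with hB
  have four : ∀ a b c d : Ω, (∀ x y : Fin 3, x ≤ y →
      bil D.c D.P D.P' (![H k, H l, H i] x) (![H k, H l, H i] y) ∈
      Submodule.span ℚ (Set.range ![a, b, c, d])) → False := by
    intro a b c d h
    have hle := A1_le_of hind _ h
    have hfd : FiniteDimensional ℚ (Submodule.span ℚ (Set.range ![a, b, c, d])) :=
      FiniteDimensional.span_of_finite ℚ (Set.finite_range _)
    have h3 := (Submodule.finrank_mono (t := Submodule.span ℚ (Set.range ![a, b, c, d])) hle)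
    have h4 := finrank_range_le_card (R := ℚ) ![a, b, c, d]
    unfold Set.finrank at h4
    rw [Fintype.card_fin] at h4
    omega
  have hne : B (H i) (H i) ≠ 0 := bil_H_ne D i
  by_cases hj : j = k ∨ j = l
  · -- the squares of the three are proportional
    have hii : ∃ μ : ℚ, B (H i) (H i) = μ • B (H l) (H l) := by
      rcases hj with rfl | rfl
      · exact ⟨κ * κ', by rw [hκ, hκ', smul_smul]⟩
      · exact ⟨κ, hκ⟩
    obtain ⟨μ, hμ⟩ := hii
    refine four (B (H l) (H l)) (B (H k) (H l)) (B (H k) (H i)) (B (H l) (H i)) ?_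
    set W := Submodule.span ℚ (Set.range ![B (H l) (H l), B (H k) (H l), B (H k) (H i),
      B (H l) (H i)])
    have w0 : B (H l) (H l) ∈ W := Submodule.subset_span ⟨0, rfl⟩
    have w1 : B (H k) (H l) ∈ W := Submodule.subset_span ⟨1, rfl⟩
    have w2 : B (H k) (H i) ∈ W := Submodule.subset_span ⟨2, rfl⟩
    have w3 : B (H l) (H i) ∈ W := Submodule.subset_span ⟨3, rfl⟩
    have w4 : B (H k) (H k) ∈ W := by rw [hκ']; exact W.smul_mem _ w0
    have w5 : B (H i) (H i) ∈ W := by rw [hμ]; exact W.smul_mem _ w0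
    intro a b hab
    fin_cases a <;> fin_cases b <;> first
      | exact absurd hab (by decide)
      | exact w4
      | exact w1
      | exact w2
      | exact w0
      | exact w3
      | exact w5
  · push Not at hj
    obtain ⟨hjk, hjl⟩ := hj
    obtain ⟨c, hc⟩ := exists_coeff hind (H j)
    have hc' : H j = c 0 • H k + c 1 • H l + c 2 • H i := hc
    have hc0 : c 0 ≠ 0 := by
      intro h0
      have := li3.1 (hH l i j (Ne.symm hil) (Ne.symm hjl) hij) (c 1) (c 2) (-1) (by
        rw [hc', h0]; module)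
      norm_num at this
    have hc1 : c 1 ≠ 0 := by
      intro h0
      have := li3.1 (hH k i j (Ne.symm hik) (Ne.symm hjk) hij) (c 0) (c 2) (-1) (by
        rw [hc', h0]; module)
      norm_num at this
    have hκ0 : κ ≠ 0 := by
      rintro rfl
      rw [zero_smul] at hκ
      exact hne hκ
    refine four (B (H l) (H l)) (B (H i) (H i)) (B (H k) (H i)) (B (H l) (H i)) ?_
    set W := Submodule.span ℚ (Set.range ![B (H l) (H l), B (H i) (H i), B (H k) (H i),
      B (H l) (H i)])
    have w0 : B (H l) (H l) ∈ W := Submodule.subset_span ⟨0, rfl⟩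
    have w1 : B (H i) (H i) ∈ W := Submodule.subset_span ⟨1, rfl⟩
    have w2 : B (H k) (H i) ∈ W := Submodule.subset_span ⟨2, rfl⟩
    have w3 : B (H l) (H i) ∈ W := Submodule.subset_span ⟨3, rfl⟩
    have w4 : B (H k) (H k) ∈ W := by rw [hκ']; exact W.smul_mem _ w0
    have hexp : B (H j) (H j) = (2 * c 0 * c 1) • B (H k) (H l) + ((c 0 ^ 2) • B (H k) (H k) +
        (c 1 ^ 2) • B (H l) (H l) + (c 2 ^ 2) • B (H i) (H i) + (2 * c 0 * c 2) • B (H k) (H i) +
        (2 * c 1 * c 2) • B (H l) (H i)) := by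
      rw [hc']
      simp only [hB, bil_add_left, bil_add_right, bil_smul_left, bil_smul_right]
      rw [bil_comm _ _ _ (H l) (H k), bil_comm _ _ _ (H i) (H k), bil_comm _ _ _ (H i) (H l)]
      module
    have w5 : B (H k) (H l) ∈ W := by
      have h2 : (2 * c 0 * c 1) ≠ 0 := mul_ne_zero (mul_ne_zero two_ne_zero hc0) hc1
      have h3 : (2 * c 0 * c 1) • B (H k) (H l) ∈ W := by
        have h4 : (2 * c 0 * c 1) • B (H k) (H l) = κ⁻¹ • B (H i) (H i) -
            ((c 0 ^ 2) • B (H k) (H k) + (c 1 ^ 2) • B (H l) (H l) + (c 2 ^ 2) • B (H i) (H i) +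
            (2 * c 0 * c 2) • B (H k) (H i) + (2 * c 1 * c 2) • B (H l) (H i)) := by
          have h6 : κ⁻¹ • B (H i) (H i) = B (H j) (H j) := by
            rw [hκ, smul_smul, inv_mul_cancel₀ hκ0, one_smul]
          rw [h6, hexp]; abel
        rw [h4]
        refine W.sub_mem (W.smul_mem _ w1) ?_
        exact W.add_mem (W.add_mem (W.add_mem (W.add_mem (W.smul_mem _ w4) (W.smul_mem _ w0))
          (W.smul_mem _ w1)) (W.smul_mem _ w2)) (W.smul_mem _ w3)
      have := W.smul_mem (2 * c 0 * c 1)⁻¹ h3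
      rwa [smul_smul, inv_mul_cancel₀ h2, one_smul] at this
    intro a b hab
    fin_cases a <;> fin_cases b <;> first
      | exact absurd hab (by decide)
      | exact w4
      | exact w5
      | exact w2
      | exact w0
      | exact w3
      | exact w1

/-- Liouville's inequality for a line -/
lemma liou (D : HD V H Ω) (i : Fin q) :
    ∑ v, (D.α v i + D.α' v i) ≤ 1 := by
  set y := bil D.c D.P D.P' (H i) (H i) with hy
  have hne : y ≠ 0 := bil_H_ne D i
  have hfr : Module.finrank ℚ (Submodule.span ℚ {y}) = 1 := finrank_span_singleton hne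
  have := D.sst 1 (Submodule.span ℚ {y}) le_rfl (by
    rw [pow_one, Submodule.span_singleton_le_iff_mem]
    exact bil_mem _ _ _ _ _) (fun _ => Fin 1) (fun _ _ => y) (fun v _ => D.α v i + D.α' v i)
    (fun v => by rw [hfr]; rfl) (fun v => LinearIndependent.of_subsingleton (0 : Fin 1) hne)
    (fun v _ => Submodule.mem_span_singleton_self y) (fun v _ => lev_self D v i)
  rw [hfr] at this
  simpa using this

/-- the case `finrank A1 = 5` -/
lemma abs_five (hq : 4 ≤ q) (hH : GenPos H) (D : HD V H Ω) (hNL : NoLine D)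
    (h5 : Module.finrank ℚ (A1 D.c D.P D.P') = 5) : ∑ v, ∑ i, (D.α v i + D.α' v i) ≤ 6 := by
  by_cases hall : ∀ v, Tot D v (∑ i, (D.α v i + D.α' v i))
  · have h1 := sst1 D _ hall
    rw [h5] at h1
    push_cast at h1
    linarith
  · push Not at hall
    obtain ⟨v0, hv0⟩ := hall
    obtain ⟨i, j, hij, hrel, _, _⟩ := (five_local hq hH D hNL h5 v0).resolve_left hv0
    have h : ∀ v, Tot D v (∑ i, (D.α v i + D.α' v i) - (D.α v i + D.α' v i)) := by
      intro v
      rcases five_local hq hH D hNL h5 v with h | ⟨k, l, hkl, hrel', hk, hl⟩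
      · refine h.mono ?_
        have := D.α_nonneg v i
        have := D.α_nonneg' v i
        linarith
      · rcases pair_uniq hq hH D h5 hij hkl hrel hrel' with h | h
        · rw [h]; exact hk
        · rw [h]; exact hl
    have h1 := sst1 D _ h
    rw [h5, Finset.sum_sub_distrib] at h1
    have h2 := liou D i
    push_cast at h1
    linarith

end

end Pool.Agent.Y734.B
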