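import Mathlib
import Pool.Agent.Y734.B.Five

/-!
# The point on a rational line
-/

set_option autoImplicit false

namespace Pool.Agent.Y734.B

open MvPolynomial

section

variable {V : Type} [Fintype V] {q : ℕ} {H : Fin q → Fin 3 → ℚ} {Ω : Type} [Field Ω] [Algebra ℚ Ω]

lemma li3_of_det {a b c : Fin 3 → ℚ} (h : Matrix.det (Matrix.of ![a, b, c]) ≠ 0) :
    LinearIndependent ℚ ![a, b, c] :=
  Matrix.linearIndependent_rows_of_det_ne_zero h

/-- the second weight is zero unless the double point is on the line -/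
lemma min_le_dbl (D : HD V H Ω) {ℓ : Fin 3 → ℚ} (hP : lf D.P ℓ = 0) (v : V) {p r : Fin q}
    (hpr : p ≠ r) (hle : D.α v r ≤ D.α v p) :
    D.α v r ≤ ∑ x ∈ dbl H ℓ, min (D.α v x.1) (D.α v x.2) := by
  have hnn : ∀ x ∈ dbl H ℓ, 0 ≤ min (D.α v x.1) (D.α v x.2) := fun x _ =>
    le_min (D.α_nonneg v _) (D.α_nonneg v _)
  by_cases hb : 0 < D.α v r
  · have key : ∀ i j : Fin q, D.α v r ≤ D.α v i → D.α v r ≤ D.α v j → i < j →
        D.α v r ≤ ∑ x ∈ dbl H ℓ, min (D.α v x.1) (D.α v x.2) := by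
      intro i j hi hj hij
      have hdet : Matrix.det (Matrix.of ![H i, H j, ℓ]) = 0 := by
        by_contra hne
        have := D.lp_three v ![H i, H j, ℓ] (D.α v r) (li3_of_det hne) (fun k => by
          fin_cases k
          · exact D.lp_mono v _ _ _ hi (D.lp_α v i)
          · exact D.lp_mono v _ _ _ hj (D.lp_α v j)
          · exact D.lp_null v _ _ hP)
        linarith
      have hmem : (i, j) ∈ dbl H ℓ := by
        unfold dbl
        rw [Finset.mem_filter]
        exact ⟨Finset.mem_univ _, hij, hdet⟩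
      exact (le_min hi hj).trans
        (Finset.single_le_sum (f := fun x : Fin q × Fin q => min (D.α v x.1) (D.α v x.2)) hnn hmem)
    rcases lt_or_gt_of_ne hpr with h | h
    · exact key p r hle le_rfl h
    · exact key r p le_rfl hle h
  · exact (not_lt.1 hb).trans (Finset.sum_nonneg hnn)

lemma exists_coeff2 {G ℓ G' : Fin 3 → ℚ} (hG : LinearIndependent ℚ ![G, ℓ])
    (h : ¬ LinearIndependent ℚ ![G, G', ℓ]) : ∃ x y : ℚ, G' = x • G + y • ℓ := by
  rw [li3] at h
  push Not at h
  obtain ⟨a, b, c, habc, hne⟩ := h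
  have hb : b ≠ 0 := by
    intro hb
    rw [hb, zero_smul, add_zero] at habc
    obtain ⟨h1, h2⟩ := LinearIndependent.pair_iff.1 hG a c habc
    exact hne h1 hb h2
  exact ⟨_, _, solve3 habc hb⟩

lemma bil_line (D : HD V H Ω) {ℓ : Fin 3 → ℚ} (hP : lf D.P ℓ = 0) (G : Fin 3 → ℚ) :
    bil D.c D.P D.P' G ℓ = 0 := by
  unfold bil
  rw [hP, (D.conj ℓ).1 hP]
  ring

lemma pair_line (D : HD V H Ω) {ℓ : Fin 3 → ℚ} (hℓ : ℓ ≠ 0) (hP : lf D.P ℓ = 0) (i : Fin q) :
    LinearIndependent ℚ ![H i, ℓ] := by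
  rw [LinearIndependent.pair_iff]
  intro a b hab
  have h1 := congrArg (lf D.P) hab
  rw [lf_add, lf_smul, lf_smul, hP, mul_zero, add_zero] at h1
  have h0 : lf D.P 0 = 0 := by simp [lf]
  rw [h0] at h1
  have ha : a = 0 := by
    rcases mul_eq_zero.1 h1 with h | h
    · exact (map_eq_zero _).1 h
    · exact absurd h (D.H_ne i)
  rw [ha, zero_smul, zero_add] at hab
  exact ⟨ha, (smul_eq_zero.1 hab).resolve_right hℓ⟩

lemma A1_line (D : HD V H Ω) {ℓ : Fin 3 → ℚ} (hP : lf D.P ℓ = 0) {G G' : Fin 3 → ℚ}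
    (h : LinearIndependent ℚ ![G, G', ℓ]) : A1 D.c D.P D.P' ≤ Submodule.span ℚ (Set.range
      ![bil D.c D.P D.P' G G, bil D.c D.P D.P' G' G', bil D.c D.P D.P' G G']) := by
  refine A1_le_of h _ fun i j hij => ?_
  fin_cases i <;> fin_cases j
  · exact Submodule.subset_span ⟨0, rfl⟩
  · exact Submodule.subset_span ⟨2, rfl⟩
  · show bil D.c D.P D.P' G ℓ ∈ _
    rw [bil_line D hP]
    exact Submodule.zero_mem _
  · exact absurd hij (by decide)
  · exact Submodule.subset_span ⟨1, rfl⟩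
  · show bil D.c D.P D.P' G' ℓ ∈ _
    rw [bil_line D hP]
    exact Submodule.zero_mem _
  · exact absurd hij (by decide)
  · exact absurd hij (by decide)
  · show bil D.c D.P D.P' ℓ ℓ ∈ _
    rw [bil_line D hP]
    exact Submodule.zero_mem _

/-- the point on a rational line, with all values of the restricted form independent -/
lemma tot_line (D : HD V H Ω) {ℓ : Fin 3 → ℚ} (hℓ : ℓ ≠ 0) (hP : lf D.P ℓ = 0)
    (h3 : 3 ≤ Module.finrank ℚ (A1 D.c D.P D.P')) (v : V) (p s : Fin q) :
    Tot D v (D.α v p + D.α' v s) := by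
  by_cases hind : LinearIndependent ℚ ![H p, H s, ℓ]
  · have hli : LinearIndependent ℚ ![bil D.c D.P D.P' (H p) (H p), bil D.c D.P D.P' (H s) (H s),
        bil D.c D.P D.P' (H p) (H s)] := by
      rw [linearIndependent_iff_card_le_finrank_span, Fintype.card_fin]
      refine h3.trans ?_
      have : FiniteDimensional ℚ (Submodule.span ℚ (Set.range
        ![bil D.c D.P D.P' (H p) (H p), bil D.c D.P D.P' (H s) (H s),
          bil D.c D.P D.P' (H p) (H s)])) :=
        FiniteDimensional.span_of_finite ℚ (Set.finite_range _)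
      exact Submodule.finrank_mono (A1_line D hP hind)
    have hli2 : LinearIndependent ℚ ![bil D.c D.P D.P' (H p) (H p),
        bil D.c D.P D.P' (H s) (H s)] := by
      rw [LinearIndependent.pair_iff]
      intro a b hab
      have := li3.1 hli a b 0 (by rw [zero_smul, add_zero]; exact hab)
      exact ⟨this.1, this.2.1⟩
    refine tot_two D v hli2 (bil_mem _ _ _ _ _) (bil_mem _ _ _ _ _) (lev_self D v p)
      (lev_self D v s) ?_
    have := D.α_nonneg v s
    have := D.α_nonneg' v p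
    linarith
  · obtain ⟨x, y, hxy⟩ := exists_coeff2 (pair_line D hℓ hP p) hind
    have h1 : D.LP v (H s) (D.α v p) :=
      lp_comb D v (D.lp_α v p) (D.lp_null v ℓ _ hP) ⟨x, y, hxy⟩
    have h2 := D.pair v (H s) (H s) _ _ _ _ h1 (D.lp_α' v s) h1 (D.lp_α' v s)
    rw [min_self] at h2
    exact tot_one D v (bil_H_ne D s) (bil_mem _ _ _ _ _) h2 le_rfl

/-- **the point on a rational line** -/
lemma abs_line (hq : 4 ≤ q) (hH : GenPos H) (D : HD V H Ω) {ℓ : Fin 3 → ℚ} (hℓ : ℓ ≠ 0)
    (hP : lf D.P ℓ = 0) (hd : (dbl H ℓ).card ≤ 2) : ∑ v, ∑ i, (D.α v i + D.α' v i) ≤ 6 := by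
  choose p r s t h using fun v => exists_top hq hH D v
  by_cases h3 : 3 ≤ Module.finrank ℚ (A1 D.c D.P D.P')
  · -- `finrank = 3`
    have hle3 : Module.finrank ℚ (A1 D.c D.P D.P') ≤ 3 := by
      obtain ⟨j, hj⟩ : ∃ j : Fin q, LinearIndependent ℚ ![H ⟨0, by omega⟩, H j, ℓ] := by
        by_contra hno
        push Not at hno
        obtain ⟨x1, y1, e1⟩ := exists_coeff2 (pair_line D hℓ hP ⟨0, by omega⟩) (hno ⟨1, by omega⟩)
        obtain ⟨x2, y2, e2⟩ := exists_coeff2 (pair_line D hℓ hP ⟨0, by omega⟩) (hno ⟨2, by omega⟩)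
        have h012 := li3.1 (hH ⟨0, by omega⟩ ⟨1, by omega⟩ ⟨2, by omega⟩ (by simp) (by simp)
          (by simp)) (x1 * y2 - x2 * y1) (-y2) y1 (by rw [e1, e2]; module)
        obtain ⟨_, hy2, hy1⟩ := h012
        have h01 := LinearIndependent.pair_iff.1 (linInd_pair hH hq
          (p := ⟨0, by omega⟩) (r := ⟨1, by omega⟩) (by simp)) (-x1) 1 (by
            rw [e1, hy1]; module)
        exact one_ne_zero h01.2
      have hfd : FiniteDimensional ℚ (Submodule.span ℚ (Set.range
        ![bil D.c D.P D.P' (H ⟨0, by omega⟩) (H ⟨0, by omega⟩), bil D.c D.P D.P' (H j) (H j),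
          bil D.c D.P D.P' (H ⟨0, by omega⟩) (H j)])) :=
        FiniteDimensional.span_of_finite ℚ (Set.finite_range _)
      refine (Submodule.finrank_mono (A1_line D hP hj)).trans ?_
      exact (finrank_range_le_card (R := ℚ) _).trans (by simp)
    have h1 := sst1 D _ fun v => tot_line D hℓ hP h3 v (p v) (s v)
    have h2 : (Module.finrank ℚ (A1 D.c D.P D.P') : ℝ) ≤ 3 := by exact_mod_cast hle3
    have h4 : ∑ v, ∑ i, (D.α v i + D.α' v i) ≤ ∑ v, 2 * (D.α v (p v) + D.α' v (s v)) := by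
      refine Finset.sum_le_sum fun v _ => ?_
      rw [(h v).sum]
      have := (h v).le
      have := (h v).le'
      linarith
    rw [← Finset.mul_sum] at h4
    linarith
  · -- `finrank ≤ 2`
    push Not at h3
    have hT : ∀ v, Tot D v ((D.α v (p v) + D.α' v (s v)) / 2) := by
      intro v
      have hp0 := D.α_nonneg' v (p v)
      have hs0 := D.α_nonneg v (s v)
      rcases le_total (D.α v (p v)) (D.α' v (s v)) with h1 | h1
      · exact tot_one D v (bil_H_ne D (s v)) (bil_mem _ _ _ _ _) (lev_self D v (s v)) (by linarith)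
      · exact tot_one D v (bil_H_ne D (p v)) (bil_mem _ _ _ _ _) (lev_self D v (p v)) (by linarith)
    have h1 := sst1 D _ hT
    rw [← Finset.sum_div] at h1
    have h2 : (Module.finrank ℚ (A1 D.c D.P D.P') : ℝ) ≤ 2 := by
      have : Module.finrank ℚ (A1 D.c D.P D.P') ≤ 2 := by omega
      exact_mod_cast this
    -- the second weights
    have hb : ∀ v, D.α v (r v) + D.α' v (t v) ≤
        ∑ x ∈ dbl H ℓ, (D.α v x.1 + D.α' v x.1) := by
      intro v
      have e1 := min_le_dbl D hP v (h v).hpr (h v).le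
      have e2 := min_le_dbl D.swap ((D.conj ℓ).1 hP) v (h v).hst (h v).le'
      have e1' : ∑ x ∈ dbl H ℓ, min (D.α v x.1) (D.α v x.2) ≤ ∑ x ∈ dbl H ℓ, D.α v x.1 :=
        Finset.sum_le_sum fun x _ => min_le_left _ _
      have e2' : ∑ x ∈ dbl H ℓ, min (D.α' v x.1) (D.α' v x.2) ≤ ∑ x ∈ dbl H ℓ, D.α' v x.1 :=
        Finset.sum_le_sum fun x _ => min_le_left _ _
      rw [Finset.sum_add_distrib]
      exact add_le_add (e1.trans e1') (le_trans e2 e2')
    have hb' : ∑ v, (D.α v (r v) + D.α' v (t v)) ≤ 2 := by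
      refine (Finset.sum_le_sum fun v _ => hb v).trans ?_
      rw [Finset.sum_comm]
      refine (Finset.sum_le_sum fun x _ => liou D x.1).trans ?_
      rw [Finset.sum_const, nsmul_eq_mul, mul_one]
      exact_mod_cast hd
    have h4 : ∑ v, ∑ i, (D.α v i + D.α' v i) = ∑ v, (D.α v (p v) + D.α' v (s v)) +
        ∑ v, (D.α v (r v) + D.α' v (t v)) := by
      rw [← Finset.sum_add_distrib]
      refine Finset.sum_congr rfl fun v _ => ?_
      rw [(h v).sum]
      ring
    linarith

end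

end Pool.Agent.Y734.B
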