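import Mathlib
import Pool.Agent.Y734.Abs.Four
import Pool.Agent.Y734.B.Five

/-!
# The case `finrank A1 = 4`
-/

set_option autoImplicit false

namespace Pool.Agent.Y734.B

open MvPolynomial

section

variable {V : Type} [Fintype V] {q : ℕ} {H : Fin q → Fin 3 → ℚ} {Ω : Type} [Field Ω] [Algebra ℚ Ω]

/-- the homogeneous relations of every basis of `A1` are the multiples of one form -/
def RelAll (D : HD V H Ω) : Prop :=
  ∀ x : Fin 4 → Ω, Submodule.span ℚ (Set.range x) = A1 D.c D.P D.P' →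
    ∃ (e : ℕ) (F : MvPolynomial (Fin 4) ℚ), Rel x e F

lemma RelAll.swap {D : HD V H Ω} (h : RelAll D) : RelAll D.swap := by
  intro x hx
  refine h x ?_
  rw [hx]
  exact A1_swap D.c D.P D.P'

/-- the data for the inequality of Evertse and Ferretti at one place -/
def Good (D : HD V H Ω) (v : V) (T : ℝ) : Prop :=
  ∃ (x : Fin 4 → Ω) (e : ℕ) (F : MvPolynomial (Fin 4) ℚ) (m : Fin 4 →₀ ℕ) (w : Fin 4 → ℝ),
    Submodule.span ℚ (Set.range x) = A1 D.c D.P D.P' ∧ 1 ≤ e ∧ Rel x e F ∧ LexMin F m ∧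
    (∀ i, D.Lev v 1 (x i) (w i)) ∧ T ≤ ∑ i, w i - (∑ i, w i * m i) / e

lemma span_eq_A1 {D : HD V H Ω} (h4 : Module.finrank ℚ (A1 D.c D.P D.P') = 4) {x : Fin 4 → Ω}
    (hx : LinearIndependent ℚ x) (hm : ∀ i, x i ∈ A1 D.c D.P D.P') :
    Submodule.span ℚ (Set.range x) = A1 D.c D.P D.P' := by
  refine Submodule.eq_of_le_of_finrank_eq ?_ ?_
  · rw [Submodule.span_le]
    rintro _ ⟨i, rfl⟩
    exact hm i
  · rw [h4, finrank_span_eq_card hx, Fintype.card_fin]

/-- the crude gain -/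
lemma good_crude {D : HD V H Ω} (hR : RelAll D) (v : V) (h4 : Module.finrank ℚ (A1 D.c D.P D.P') = 4)
    {x : Fin 4 → Ω} (hx : LinearIndependent ℚ x) (hm : ∀ i, x i ∈ A1 D.c D.P D.P')
    (w : Fin 4 → ℝ) (hw : ∀ i, D.Lev v 1 (x i) (w i)) (h1 : 0 ≤ w 1)
    (h3 : w 3 = 0) {T : ℝ} (hT : T ≤ w 0 + min (w 1) (w 2)) : Good D v T := by
  have hspan := span_eq_A1 h4 hx hm
  obtain ⟨e, F, hF⟩ := hR x hspan
  have he := rel_two_le hx hF
  obtain ⟨m, hmm⟩ := EF.exists_lexMin hF.2.1.ne_zero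
  refine ⟨x, e, F, m, w, hspan, by omega, hF, hmm, hw, ?_⟩
  have h0 := lexmin_zero he hF hmm
  have hd := lexmin_deg hF hmm
  have he0 : (0 : ℝ) < e := by
    have : 0 < e := by omega
    exact_mod_cast this
  rw [Fin.sum_univ_four, Fin.sum_univ_four, h0, h3]
  have hdr : ((m 1 : ℕ) : ℝ) + (m 2 : ℕ) ≤ e := by
    have : m 1 + m 2 ≤ e := by omega
    exact_mod_cast this
  have hmax : (w 0 * ((0 : ℕ) : ℝ) + w 1 * m 1 + w 2 * m 2 + 0 * m 3) / e ≤ max (w 1) (w 2) := by
    rw [div_le_iff₀ he0]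
    have k1 : w 1 * m 1 ≤ max (w 1) (w 2) * m 1 :=
      mul_le_mul_of_nonneg_right (le_max_left _ _) (Nat.cast_nonneg _)
    have k2 : w 2 * m 2 ≤ max (w 1) (w 2) * m 2 :=
      mul_le_mul_of_nonneg_right (le_max_right _ _) (Nat.cast_nonneg _)
    have k3 : 0 ≤ max (w 1) (w 2) := h1.trans (le_max_left _ _)
    have k4 : max (w 1) (w 2) * ((m 1 : ℝ) + m 2) ≤ max (w 1) (w 2) * e :=
      mul_le_mul_of_nonneg_left hdr k3
    rw [Nat.cast_zero, mul_zero, zero_mul, zero_add, add_zero]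
    linarith
  have hmm' : min (w 1) (w 2) + max (w 1) (w 2) = w 1 + w 2 := min_add_max _ _
  linarith

/-- a single element of large weight -/
lemma good_one {D : HD V H Ω} (hR : RelAll D) (v : V) (h4 : Module.finrank ℚ (A1 D.c D.P D.P') = 4)
    {y : Ω} (hy : y ≠ 0) (hm : y ∈ A1 D.c D.P D.P') {a T : ℝ} (hl : D.Lev v 1 y a) (hT : T ≤ a) :
    Good D v T := by
  have hy1 : LinearIndependent ℚ (![y] : Fin 1 → Ω) :=
    LinearIndependent.of_subsingleton (0 : Fin 1) hy
  obtain ⟨z1, hz1, h1⟩ := exists_snoc (A := A1 D.c D.P D.P') hy1 (by intro i; simpa using hm)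
    (by rw [h4]; norm_num)
  have m1 : ∀ i, (Fin.snoc ![y] z1 : Fin 2 → Ω) i ∈ A1 D.c D.P D.P' := by
    intro i; refine Fin.lastCases ?_ (fun j => ?_) i
    · simpa using hz1
    · simpa using hm
  obtain ⟨z2, hz2, h2⟩ := exists_snoc (A := A1 D.c D.P D.P') h1 m1 (by rw [h4]; norm_num)
  have m2 : ∀ i, (Fin.snoc (Fin.snoc ![y] z1 : Fin 2 → Ω) z2 : Fin 3 → Ω) i ∈
      A1 D.c D.P D.P' := by
    intro i; refine Fin.lastCases ?_ (fun j => ?_) i
    · simpa using hz2
    · simpa using m1 j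
  obtain ⟨z3, hz3, h3⟩ := exists_snoc (A := A1 D.c D.P D.P') h2 m2 (by rw [h4]; norm_num)
  have e : (Fin.snoc (Fin.snoc (Fin.snoc ![y] z1 : Fin 2 → Ω) z2 : Fin 3 → Ω) z3 : Fin 4 → Ω) =
      ![y, z1, z2, z3] := by
    funext i
    fin_cases i <;> rfl
  rw [e] at h3
  refine good_crude hR v h4 h3 ?_ ![a, 0, 0, 0] ?_ le_rfl rfl ?_
  · intro i; fin_cases i
    · exact hm
    · exact hz1
    · exact hz2
    · exact hz3
  · intro i; fin_cases i
    · exact hl
    · exact D.lev_mem v _ hz1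
    · exact D.lev_mem v _ hz2
    · exact D.lev_mem v _ hz3
  · show T ≤ a + min 0 0
    rw [min_self, add_zero]
    exact hT

/-- three elements -/
lemma good_three {D : HD V H Ω} (hR : RelAll D) (v : V) (h4 : Module.finrank ℚ (A1 D.c D.P D.P') = 4)
    {y0 y1 y2 : Ω} (hy : LinearIndependent ℚ ![y0, y1, y2]) (m0 : y0 ∈ A1 D.c D.P D.P')
    (m1 : y1 ∈ A1 D.c D.P D.P') (m2 : y2 ∈ A1 D.c D.P D.P') {a0 a1 a2 T : ℝ}
    (l0 : D.Lev v 1 y0 a0) (l1 : D.Lev v 1 y1 a1) (l2 : D.Lev v 1 y2 a2) (h1 : 0 ≤ a1)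
    (hT : T ≤ a0 + min a1 a2) : Good D v T := by
  have mm : ∀ i, (![y0, y1, y2] : Fin 3 → Ω) i ∈ A1 D.c D.P D.P' := by
    intro i; fin_cases i
    · exact m0
    · exact m1
    · exact m2
  obtain ⟨z3, hz3, h3⟩ := exists_snoc (A := A1 D.c D.P D.P') hy mm (by rw [h4]; norm_num)
  have e : (Fin.snoc ![y0, y1, y2] z3 : Fin 4 → Ω) = ![y0, y1, y2, z3] := by
    funext i
    fin_cases i <;> rfl
  rw [e] at h3
  refine good_crude hR v h4 h3 ?_ ![a0, a1, a2, 0] ?_ h1 rfl hT
  · intro i; fin_cases i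
    · exact m0
    · exact m1
    · exact m2
    · exact hz3
  · intro i; fin_cases i
    · exact l0
    · exact l1
    · exact l2
    · exact D.lev_mem v _ hz3

/-- the local lemma with the special position of the `P`-side -/
lemma four_side (hq : 4 ≤ q) (hH : GenPos H) (D : HD V H Ω) (hNL : NoLine D) (hNP : NoPair D)
    (hR : RelAll D) (v : V)
    (h4 : Module.finrank ℚ (A1 D.c D.P D.P') = 4) {p r s t : Fin q} (h : Top D v p r s t)
    (hps : p ≠ s) (hrs : r ≠ s) (hside : t = p ∨ (t ≠ p ∧ D.α' v t ≤ D.α v r)) :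
    Good D v ((∑ i, (D.α v i + D.α' v i)) / 2) := by
  have ha := h.le
  have ha' := h.le'
  have hb0 := D.α_nonneg v r
  have hb0' := D.α_nonneg' v t
  have hs0 : D.α v s = 0 := h.zero s (Ne.symm hps) (Ne.symm hrs)
  have hp0' := D.α_nonneg' v p
  -- the vector `K`
  obtain ⟨K, y, hK, hlpK, hlpK', hy0, hy⟩ : ∃ (K : Fin 3 → ℚ) (y : ℝ),
      LinearIndependent ℚ ![H p, K, H s] ∧ D.LP v K (D.α v r) ∧ D.LP' v K y ∧ 0 ≤ y ∧
        ((t = p ∧ y = 0) ∨ (t ≠ p ∧ y = D.α' v t)) := by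
    by_cases htp : t = p
    · exact ⟨H r, 0, hH p r s h.hpr hps hrs, D.lp_α v r, D.lp_zero' v _, le_rfl,
        Or.inl ⟨htp, rfl⟩⟩
    · obtain ⟨K, hK, ⟨a, b, hK1⟩, ⟨a', b', hK2⟩⟩ := exists_K hH h.hpr h.hst hps hrs htp
      exact ⟨K, D.α' v t, hK, lp_comb D v (D.lp_mono v _ _ _ h.le (D.lp_α v p)) (D.lp_α v r)
        ⟨a, b, hK1⟩, lp_comb D.swap v (D.lp_mono' v _ _ _ h.le' (D.lp_α' v s)) (D.lp_α' v t)
        ⟨a', b', hK2⟩, hb0', Or.inr ⟨htp, rfl⟩⟩
  have hyt : y ≤ D.α' v t := by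
    rcases hy with ⟨_, h1⟩ | ⟨_, h1⟩
    · rw [h1]; exact hb0'
    · rw [h1]
  set B := bil D.c D.P D.P' with hB
  have hmem : ∀ G G', B G G' ∈ A1 D.c D.P D.P' := fun G G' => bil_mem _ _ _ _ _
  have hpK : LinearIndependent ℚ ![H p, K] := by
    rw [li2]
    intro a b hab
    have := li3.1 hK a b 0 (by rw [hab]; simp)
    exact ⟨this.1, this.2.1⟩
  have hK0 : K ≠ 0 := by
    have := hpK.ne_zero 1
    simpa using this
  have hnp : B (H p) (H p) ≠ 0 := bil_H_ne D p
  have hns : B (H s) (H s) ≠ 0 := bil_H_ne D s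
  have hnK : B K K ≠ 0 := bil_ne D (hNL _ hK0)
  -- levels
  have lpr : D.LP v (H p) (D.α v r) := D.lp_mono v _ _ _ h.le (D.lp_α v p)
  have lpp : D.Lev v 1 (B (H p) (H p)) (D.α v p + D.α' v p) := lev_self D v p
  have lss : D.Lev v 1 (B (H s) (H s)) (D.α v s + D.α' v s) := lev_self D v s
  have l00 : D.Lev v 1 (B (H p) (H p)) (D.α v r) := lev_of_P D v lpr lpr
  have l01 : D.Lev v 1 (B (H p) K) (D.α v r) := lev_of_P D v lpr hlpK
  have l11 : D.Lev v 1 (B K K) (D.α v r) := lev_of_P D v hlpK hlpK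
  -- the top element
  have htop : ∃ i, (i = p ∨ i = s) ∧ D.α v p + D.α' v p ≤ D.α v i + D.α' v i ∧
      D.α v s + D.α' v s ≤ D.α v i + D.α' v i := by
    rcases le_total (D.α v p + D.α' v p) (D.α v s + D.α' v s) with h1 | h1
    · exact ⟨s, Or.inr rfl, h1, le_rfl⟩
    · exact ⟨p, Or.inl rfl, le_rfl, h1⟩
  obtain ⟨i0, hi0, hi1, hi2⟩ := htop
  have hni : B (H i0) (H i0) ≠ 0 := bil_H_ne D i0
  have lii : D.Lev v 1 (B (H i0) (H i0)) (D.α v i0 + D.α' v i0) := lev_self D v i0
  rw [hs0, zero_add] at hi2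
  set z : Fin 4 → Ω := ![B (H p) (H p), B (H p) K, B K K, B (H s) (H s)] with hz
  set W := Submodule.span ℚ (Set.range z) with hW
  have hWfd : FiniteDimensional ℚ W := FiniteDimensional.span_of_finite ℚ (Set.finite_range _)
  have w0 : B (H p) (H p) ∈ W := Submodule.subset_span ⟨0, rfl⟩
  have w1 : B (H p) K ∈ W := Submodule.subset_span ⟨1, rfl⟩
  have w2 : B K K ∈ W := Submodule.subset_span ⟨2, rfl⟩
  have w3 : B (H s) (H s) ∈ W := Submodule.subset_span ⟨3, rfl⟩
  rw [h.sum]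
  by_cases h3 : 3 ≤ Module.finrank ℚ W
  · -- the crude case
    obtain ⟨i, j, hij⟩ := exists_indep_two hni h3
    have hl : ∀ i, ∃ a, D.Lev v 1 (z i) a ∧ min (D.α v r) (D.α' v s) ≤ a ∧ 0 ≤ a ∧
        z i ∈ A1 D.c D.P D.P' := by
      intro i
      fin_cases i
      · exact ⟨_, l00, min_le_left _ _, hb0, hmem _ _⟩
      · exact ⟨_, l01, min_le_left _ _, hb0, hmem _ _⟩
      · exact ⟨_, l11, min_le_left _ _, hb0, hmem _ _⟩
      · refine ⟨_, lss, ?_, ?_, hmem _ _⟩
        · rw [hs0, zero_add]; exact min_le_right _ _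
        · rw [hs0, zero_add]; exact D.α_nonneg' v s
    obtain ⟨a1, la1, ha1, na1, ma1⟩ := hl i
    obtain ⟨a2, la2, ha2, na2, ma2⟩ := hl j
    refine good_three hR v h4 hij (hmem _ _) ma1 ma2 lii la1 la2 na1 ?_
    have hmin : min (D.α v r) (D.α' v s) ≤ min a1 a2 := le_min ha1 ha2
    rcases hside with htp | ⟨htp, hle⟩
    · rw [htp] at *
      rcases le_total (D.α v r) (D.α' v s) with h5 | h5
      · rw [min_eq_left h5] at hmin
        linarith
      · rw [min_eq_right h5] at hmin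
        linarith
    · rcases le_total (D.α v r) (D.α' v s) with h5 | h5
      · rw [min_eq_left h5] at hmin
        linarith
      · rw [min_eq_right h5] at hmin
        linarith
  · -- type A
    push Not at h3
    set X := Submodule.span ℚ {B (H p) (H p), B (H p) K, B K K} with hX
    have hXfd : FiniteDimensional ℚ X := FiniteDimensional.span_of_finite ℚ (by simp)
    have hX2 : 2 ≤ Module.finrank ℚ X := hNP _ _ hpK
    have hXW : X = W := by
      refine Submodule.eq_of_le_of_finrank_le ?_ (by omega)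
      rw [hX, Submodule.span_le]
      rintro z (rfl | rfl | rfl)
      · exact w0
      · exact w1
      · exact w2
    obtain ⟨x1, hx1, hind⟩ := exists_indep hni hX2
    have lx1 : D.Lev v 1 x1 (D.α v r) ∧ x1 ∈ W ∧ x1 ∈ A1 D.c D.P D.P' := by
      rcases hx1 with rfl | rfl | rfl
      · exact ⟨l00, w0, hmem _ _⟩
      · exact ⟨l01, w1, hmem _ _⟩
      · exact ⟨l11, w2, hmem _ _⟩
    have hx0W : B (H i0) (H i0) ∈ W := by
      rcases hi0 with rfl | rfl
      · exact w0
      · exact w3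
    have hW2 : Submodule.span ℚ {B (H i0) (H i0), x1} = W := by
      refine Submodule.eq_of_le_of_finrank_le ?_ ?_
      · rw [Submodule.span_le]
        rintro z (rfl | rfl)
        · exact hx0W
        · exact lx1.2.1
      · have h5 := finrank_span_eq_card hind
        have e : Set.range ![B (H i0) (H i0), x1] = {B (H i0) (H i0), x1} := by
          simp only [Matrix.range_cons, Matrix.range_empty, Set.union_empty,
            Set.singleton_union]
        rw [e, Fintype.card_fin] at h5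
        rw [h5]
        omega
    set x : Fin 4 → Ω := ![B (H i0) (H i0), x1, B K (H s), B (H p) (H s)] with hx
    have hxm : ∀ i, x i ∈ A1 D.c D.P D.P' := by
      intro i; fin_cases i
      · exact hmem _ _
      · exact lx1.2.2
      · exact hmem _ _
      · exact hmem _ _
    have hsub : W ≤ Submodule.span ℚ (Set.range x) := by
      rw [← hW2, Submodule.span_le]
      rintro z (rfl | rfl)
      · exact Submodule.subset_span ⟨0, rfl⟩
      · exact Submodule.subset_span ⟨1, rfl⟩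
    have hspan : Submodule.span ℚ (Set.range x) = A1 D.c D.P D.P' := by
      refine le_antisymm ?_ (A1_le_of hK _ ?_)
      · rw [Submodule.span_le]
        rintro _ ⟨i, rfl⟩
        exact hxm i
      · intro i j hij
        fin_cases i <;> fin_cases j <;> first
          | exact absurd hij (by decide)
          | exact hsub w0
          | exact hsub w1
          | exact hsub w2
          | exact hsub w3
          | exact Submodule.subset_span ⟨2, rfl⟩
          | exact Submodule.subset_span ⟨3, rfl⟩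
    have hxli : LinearIndependent ℚ x := by
      rw [linearIndependent_iff_card_eq_finrank_span]
      unfold Set.finrank
      rw [hspan, h4, Fintype.card_fin]
    obtain ⟨e, F, hF⟩ := hR x hspan
    have he := rel_two_le hxli hF
    obtain ⟨m, hm⟩ := EF.exists_lexMin hF.2.1.ne_zero
    set g : Fin 3 → Fin 3 → ℚ := ![H p, K, H s] with hg
    have href := REF.ref Ω x hxli (fun i j => B (g i) (g j)) (fun i j => bil_comm _ _ _ _ _)
      (det_bil _ _ _ _) (by show B (H p) (H p) ∈ Submodule.span ℚ {B (H i0) (H i0), x1}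
                            rw [hW2]; exact w0)
      (by show B (H p) K ∈ Submodule.span ℚ {B (H i0) (H i0), x1}
          rw [hW2]; exact w1)
      (by show B K K ∈ Submodule.span ℚ {B (H i0) (H i0), x1}
          rw [hW2]; exact w2)
      (by show B (H s) (H s) ∈ Submodule.span ℚ {B (H i0) (H i0), x1}
          rw [hW2]; exact w3) rfl rfl hnp hnK hns
      (by show Submodule.span ℚ {B (H p) (H p), B (H p) K, B K K} =
            Submodule.span ℚ {B (H i0) (H i0), x1}
          rw [hW2, ← hXW]) e he F hF m hm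
    obtain ⟨he3, hm0, hm1, hm23⟩ := href
    refine ⟨x, e, F, m, ![D.α v i0 + D.α' v i0, D.α v r, y, 0], hspan, by omega, hF, hm, ?_, ?_⟩
    · intro i
      fin_cases i
      · exact lii
      · exact lx1.1
      · have := D.pair v K (H s) _ _ _ _ hlpK hlpK' (D.lp_α v s) (D.lp_α' v s)
        rw [hs0, zero_add, min_eq_right (by linarith)] at this
        exact this
      · exact D.lev_mem v _ (hmem _ _)
    · rw [Fin.sum_univ_four, Fin.sum_univ_four, hm0, hm1, he3]
      show _ ≤ (D.α v i0 + D.α' v i0 + D.α v r + y + 0) - ((D.α v i0 + D.α' v i0) * ((0 : ℕ) : ℝ) +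
        D.α v r * ((1 : ℕ) : ℝ) + y * ((m 2 : ℕ) : ℝ) + 0 * ((m 3 : ℕ) : ℝ)) / ((3 : ℕ) : ℝ)
      have hm2 : ((m 2 : ℕ) : ℝ) ≤ 2 := by
        have : m 2 ≤ 2 := by omega
        exact_mod_cast this
      have k1 : y * ((m 2 : ℕ) : ℝ) ≤ y * 2 := mul_le_mul_of_nonneg_left hm2 hy0
      push_cast
      rcases hside with htp | ⟨htp, hle⟩
      · have hαp : D.α' v t = D.α' v p := by rw [htp]
        linarith
      · rcases hy with ⟨h6, _⟩ | ⟨_, h6⟩
        · exact absurd h6 htp
        · rw [h6] at k1 ⊢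
          linarith

lemma four_local (hq : 4 ≤ q) (hH : GenPos H) (D : HD V H Ω) (hNL : NoLine D) (hNP : NoPair D)
    (hR : RelAll D) (v : V)
    (h4 : Module.finrank ℚ (A1 D.c D.P D.P') = 4) :
    Good D v ((∑ i, (D.α v i + D.α' v i)) / 2) := by
  obtain ⟨p, r, s, t, h⟩ := exists_top hq hH D v
  have ha := h.le
  have ha' := h.le'
  have single : ∀ i, D.α v p + D.α v r + (D.α' v s + D.α' v t) ≤
      2 * (D.α v i + D.α' v i) → Good D v ((∑ i, (D.α v i + D.α' v i)) / 2) := by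
    intro i hi
    refine good_one hR v h4 (bil_H_ne D i) (bil_mem _ _ _ _ _) (lev_self D v i) ?_
    rw [h.sum]
    linarith
  have swapped : Good D.swap v ((∑ i, (D.swap.α v i + D.swap.α' v i)) / 2) →
      Good D v ((∑ i, (D.α v i + D.α' v i)) / 2) := by
    rintro ⟨x, e, F, m, w, h1, h2, h3, h4, h5, h6⟩
    refine ⟨x, e, F, m, w, ?_, h2, h3, h4, h5, ?_⟩
    · rw [h1]
      exact A1_swap D.c D.P D.P'
    · refine le_trans (le_of_eq ?_) h6
      congr 1
      exact Finset.sum_congr rfl fun i _ => add_comm _ _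
  have h4' : Module.finrank ℚ (A1 D.swap.c D.swap.P D.swap.P') = 4 := by
    show Module.finrank ℚ (A1 D.c D.P' D.P) = 4
    rw [A1_swap]
    exact h4
  by_cases hps : p = s
  · refine single p ?_
    rw [← hps] at ha' ⊢
    linarith
  · by_cases hrs : r = s
    · by_cases htp : t = p
      · rcases le_total (D.α v p + D.α' v t) (D.α' v s + D.α v r) with h1 | h1
        · refine single s ?_
          have : D.α v s = D.α v r := by rw [hrs]
          linarith
        · refine single p ?_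
          have : D.α' v p = D.α' v t := by rw [htp]
          linarith
      · exact swapped (four_side hq hH D.swap hNL.swap hNP.swap hR.swap v h4' h.swap (Ne.symm hps) htp (Or.inl hrs))
    · by_cases htp : t = p
      · exact four_side hq hH D hNL hNP hR v h4 h hps hrs (Or.inl htp)
      · rcases le_total (D.α' v t) (D.α v r) with h1 | h1
        · exact four_side hq hH D hNL hNP hR v h4 h hps hrs (Or.inr ⟨htp, h1⟩)
        · exact swapped (four_side hq hH D.swap hNL.swap hNP.swap hR.swap v h4' h.swap (Ne.symm hps) htp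
            (Or.inr ⟨hrs, h1⟩))

/-- the sum of the local gains -/
lemma sum_good (D : HD V H Ω) (T : V → ℝ) (h : ∀ v, Good D v (T v)) : ∑ v, T v ≤ 3 := by
  choose x e F m w h1 h2 h3 h5 h6 h7 using h
  have key := EF.ef V Ω (A1 D.c D.P D.P') x h1 e h2 F h3 m h5 w D.Lev D.lev_one D.lev_mul h6
    (fun k ι _ b u hk hcard hli hmem hlev => D.sst k _ hk le_rfl ι b u hcard hli hmem hlev)
  exact (Finset.sum_le_sum fun v (_ : v ∈ Finset.univ) => h7 v).trans key

/-- the case `finrank A1 = 4` -/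
lemma abs_four (hq : 4 ≤ q) (hH : GenPos H) (D : HD V H Ω) (hNL : NoLine D) (hNP : NoPair D)
    (hR : RelAll D) (h4 : Module.finrank ℚ (A1 D.c D.P D.P') = 4) :
    ∑ v, ∑ i, (D.α v i + D.α' v i) ≤ 6 := by
  have h8 := sum_good D _ fun v => four_local hq hH D hNL hNP hR v h4
  rw [← Finset.sum_div] at h8
  linarith

end

end Pool.Agent.Y734.B
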