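import Mathlib
import Pool.Agent.Y734.Stms3
import Pool.Agent.Y734.B.Five

/-!
# The bound from one element: `finrank A1 ≤ 2`, and spaces of slow growth
-/

set_option autoImplicit false

namespace Pool.Agent.Y734.B

open MvPolynomial

section

variable {V : Type} [Fintype V] {q : ℕ} {H : Fin q → Fin 3 → ℚ} {Ω : Type} [Field Ω] [Algebra ℚ Ω]

/-- two planes have a common vector -/
lemma exists_common {G1 G2 G3 G4 : Fin 3 → ℚ} (h1 : LinearIndependent ℚ ![G1, G2])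
    (h2 : LinearIndependent ℚ ![G3, G4]) :
    ∃ K : Fin 3 → ℚ, K ≠ 0 ∧ (∃ a b : ℚ, K = a • G1 + b • G2) ∧ ∃ a b : ℚ, K = a • G3 + b • G4 := by
  have hdep : ¬ LinearIndependent ℚ ![G1, G2, G3, G4] := by
    intro h
    have := h.fintype_card_le_finrank
    simp at this
  rw [Fintype.not_linearIndependent_iff] at hdep
  obtain ⟨g, hg, i, hi⟩ := hdep
  rw [Fin.sum_univ_four] at hg
  have hg' : g 0 • G1 + g 1 • G2 + g 2 • G3 + g 3 • G4 = 0 := hg
  have e : g 0 • G1 + g 1 • G2 = (-g 2) • G3 + (-g 3) • G4 := by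
    rw [← sub_eq_zero, ← hg']; module
  refine ⟨g 0 • G1 + g 1 • G2, ?_, ⟨_, _, rfl⟩, ⟨_, _, e⟩⟩
  intro h0
  obtain ⟨e0, e1⟩ := LinearIndependent.pair_iff.1 h1 _ _ h0
  rw [h0] at e
  obtain ⟨e2, e3⟩ := LinearIndependent.pair_iff.1 h2 _ _ e.symm
  apply hi
  fin_cases i
  · exact e0
  · exact e1
  · exact neg_eq_zero.1 e2
  · exact neg_eq_zero.1 e3

/-- one element has a third of the weight -/
lemma exists_el (hq : 4 ≤ q) (hH : GenPos H) (D : HD V H Ω) (hNL : NoLine D) (v : V) :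
    ∃ (y : Ω) (a : ℝ), y ≠ 0 ∧ y ∈ A1 D.c D.P D.P' ∧ D.Lev v 1 y a ∧
      ∑ i, (D.α v i + D.α' v i) ≤ 3 * a := by
  obtain ⟨p, r, s, t, h⟩ := exists_top hq hH D v
  obtain ⟨K, hK0, hK1, hK2⟩ := exists_common (linInd_pair hH hq h.hpr) (linInd_pair hH hq h.hst)
  have l1 : D.LP v K (D.α v r) :=
    lp_comb D v (D.lp_mono v _ _ _ h.le (D.lp_α v p)) (D.lp_α v r) hK1
  have l2 : D.LP' v K (D.α' v t) :=
    lp_comb D.swap v (D.lp_mono' v _ _ _ h.le' (D.lp_α' v s)) (D.lp_α' v t) hK2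
  have l3 := D.pair v K K _ _ _ _ l1 l2 l1 l2
  rw [min_self] at l3
  have hp0 := D.α_nonneg' v p
  have hs0 := D.α_nonneg v s
  rw [h.sum]
  by_cases h1 : D.α v p + D.α v r + (D.α' v s + D.α' v t) ≤ 3 * (D.α v r + D.α' v t)
  · exact ⟨_, _, bil_ne D (hNL K hK0), bil_mem _ _ _ _ _, l3, h1⟩
  · rcases le_total (D.α v p) (D.α' v s) with h2 | h2
    · exact ⟨_, _, bil_H_ne D s, bil_mem _ _ _ _ _, lev_self D v s, by linarith⟩
    · exact ⟨_, _, bil_H_ne D p, bil_mem _ _ _ _ _, lev_self D v p, by linarith⟩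

/-- the case `finrank A1 ≤ 2` -/
lemma abs_two (hq : 4 ≤ q) (hH : GenPos H) (D : HD V H Ω) (hNL : NoLine D)
    (h2 : Module.finrank ℚ (A1 D.c D.P D.P') ≤ 2) : ∑ v, ∑ i, (D.α v i + D.α' v i) ≤ 6 := by
  have h : ∀ v, Tot D v ((∑ i, (D.α v i + D.α' v i)) / 3) := by
    intro v
    obtain ⟨y, a, hy, hm, hl, ha⟩ := exists_el hq hH D hNL v
    exact tot_one D v hy hm hl (by linarith)
  have h1 := sst1 D _ h
  rw [← Finset.sum_div] at h1
  have h2' : (Module.finrank ℚ (A1 D.c D.P D.P') : ℝ) ≤ 2 := by exact_mod_cast h2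
  linarith

/-- the powers of `A1` grow slowly -/
def Small (D : HD V H Ω) : Prop := ∃ C : ℝ, ∀ k : ℕ,
  (Module.finrank ℚ (A1 D.c D.P D.P' ^ k : Submodule ℚ Ω) : ℝ) ≤ C * (k + 1)

/-- the case of slow growth -/
lemma abs_small (hgrow : GrowStmt) (hq : 4 ≤ q) (hH : GenPos H) (D : HD V H Ω) (hNL : NoLine D)
    (hs : Small D) : ∑ v, ∑ i, (D.α v i + D.α' v i) ≤ 6 := by
  choose y a hy hm hl ha using fun v => exists_el hq hH D hNL v
  obtain ⟨C, hC⟩ := hs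
  have key := hgrow V Ω (A1 D.c D.P D.P') y hy hm a D.Lev D.lev_one D.lev_mul hl D.lev_mem
    (fun k ι _ b u hk hcard hli hmem hlev => D.sst k _ hk le_rfl ι b u hcard hli hmem hlev) C hC
  have h1 := Finset.sum_le_sum fun v (_ : v ∈ Finset.univ) => ha v
  rw [← Finset.mul_sum] at h1
  linarith

end

end Pool.Agent.Y734.B
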