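import Mathlib
import Pool.Agent.Y734.B.Small
import Pool.Agent.Y734.B.Four

/-!
# Pencils of lines on which all values are proportional
-/

set_option autoImplicit false

namespace Pool.Agent.Y734.B

open MvPolynomial

section

variable {Ω : Type} [Field Ω] [Algebra ℚ Ω]

/-- `X` is a combination of `G` and `G'` -/
def Inn (G G' X : Fin 3 → ℚ) : Prop := ∃ x y : ℚ, X = x • G + y • G'

lemma inn_left (G G' : Fin 3 → ℚ) : Inn G G' G := ⟨1, 0, by module⟩

lemma inn_right (G G' : Fin 3 → ℚ) : Inn G G' G' := ⟨0, 1, by module⟩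

lemma li3_of_not_inn {G G' X : Fin 3 → ℚ} (h : LinearIndependent ℚ ![G, G'])
    (hX : ¬ Inn G G' X) : LinearIndependent ℚ ![G, G', X] := by
  rw [li3]
  intro a b c habc
  by_cases hc : c = 0
  · rw [hc, zero_smul, add_zero] at habc
    obtain ⟨h1, h2⟩ := LinearIndependent.pair_iff.1 h a b habc
    exact ⟨h1, h2, hc⟩
  · exfalso
    apply hX
    exact ⟨_, _, solve3 (a := a) (b := c) (c := b) (x := G) (y := X) (z := G')
      (by rw [← habc]; module) hc⟩

lemma inn_three {q : ℕ} {H : Fin q → Fin 3 → ℚ} (hH : GenPos H) {G G' : Fin 3 → ℚ} {i j k : Fin q}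
    (hij : i ≠ j) (hik : i ≠ k) (hjk : j ≠ k) (h1 : Inn G G' (H i)) (h2 : Inn G G' (H j))
    (h3 : Inn G G' (H k)) : False := by
  have hli := hH i j k hij hik hjk
  have h4 := finrank_span_eq_card hli
  have hle : Submodule.span ℚ (Set.range ![H i, H j, H k]) ≤
      Submodule.span ℚ (Set.range ![G, G']) := by
    rw [Submodule.span_le]
    rintro _ ⟨l, rfl⟩
    have key : ∀ X, Inn G G' X → X ∈ Submodule.span ℚ (Set.range ![G, G']) := by
      rintro X ⟨x, y, rfl⟩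
      exact Submodule.add_mem _ (Submodule.smul_mem _ _ (Submodule.subset_span ⟨0, rfl⟩))
        (Submodule.smul_mem _ _ (Submodule.subset_span ⟨1, rfl⟩))
    fin_cases l
    · exact key _ h1
    · exact key _ h2
    · exact key _ h3
  have h5 := Submodule.finrank_mono hle
  have h6 := finrank_range_le_card (R := ℚ) ![G, G']
  unfold Set.finrank at h6
  rw [Fintype.card_fin] at h4 h6
  omega

/-- transfer of a homogeneous relation to other generators -/
lemma transfer {n m : ℕ} (x : Fin m → Ω) (x' : Fin n → Ω)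
    (hx : ∀ i, x i ∈ Submodule.span ℚ (Set.range x')) {k : ℕ} (Q : MvPolynomial (Fin m) ℚ)
    (hQ : Q.IsHomogeneous k) (h0 : aeval x Q = 0) (f : Ω →ₗ[ℚ] ℚ)
    (hf : aeval (fun i => f (x i)) Q ≠ 0) :
    ∃ Q' : MvPolynomial (Fin n) ℚ, Q'.IsHomogeneous k ∧ Q' ≠ 0 ∧ aeval x' Q' = 0 := by
  have hT : ∀ i, ∃ a : Fin n → ℚ, ∑ j, a j • x' j = x i := fun i =>
    (Submodule.mem_span_range_iff_exists_fun ℚ).1 (hx i)
  choose T hT using hT
  set L : Fin m → MvPolynomial (Fin n) ℚ := fun i => ∑ j, C (T i j) * X j with hL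
  have hLh : ∀ i, (L i).IsHomogeneous 1 := by
    intro i
    refine IsHomogeneous.sum _ _ _ fun j _ => ?_
    have := (isHomogeneous_C (Fin n) (T i j)).mul (isHomogeneous_X ℚ j)
    simpa using this
  refine ⟨aeval L Q, ?_, ?_, ?_⟩
  · have := hQ.aeval L hLh
    rwa [one_mul] at this
  · intro hz
    apply hf
    have h1 : aeval (fun j => f (x' j)) (aeval L Q) = (0 : ℚ) := by rw [hz, map_zero]
    rw [comp_aeval_apply] at h1
    rw [← h1]
    congr 1
    congr 1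
    funext i
    rw [hL, ← hT i]
    simp [map_sum, smul_eq_mul]
  · rw [comp_aeval_apply, ← h0]
    congr 1
    congr 1
    funext i
    rw [hL, ← hT i]
    simp [map_sum, Algebra.smul_def]

/-- the equation of the quadric -/
noncomputable def quadr (a b : ℚ) : MvPolynomial (Fin 4) ℚ :=
  C (b - a ^ 2) * (X 0 * X 1) - (X 3 ^ 2 - C (2 * a) * (X 2 * X 3) + C b * X 2 ^ 2)

lemma quadr_hom (a b : ℚ) : (quadr a b).IsHomogeneous 2 := by
  have a1 := (isHomogeneous_C (Fin 4) (b - a ^ 2)).mul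
    ((isHomogeneous_X ℚ (0 : Fin 4)).mul (isHomogeneous_X ℚ (1 : Fin 4)))
  have a2 := ((isHomogeneous_X ℚ (3 : Fin 4)).pow 2)
  have a3 := (isHomogeneous_C (Fin 4) (2 * a)).mul
    ((isHomogeneous_X ℚ (2 : Fin 4)).mul (isHomogeneous_X ℚ (3 : Fin 4)))
  have a4 := (isHomogeneous_C (Fin 4) b).mul ((isHomogeneous_X ℚ (2 : Fin 4)).pow 2)
  simp only [one_mul, zero_add] at a1 a2 a3 a4
  exact a1.sub ((a2.sub a3).add a4)

lemma aeval_quadr {R : Type} [CommRing R] [Algebra ℚ R] (a b : ℚ) (x : Fin 4 → R) :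
    aeval x (quadr a b) = algebraMap ℚ R (b - a ^ 2) * (x 0 * x 1) -
      (x 3 ^ 2 - algebraMap ℚ R (2 * a) * (x 2 * x 3) + algebraMap ℚ R b * x 2 ^ 2) := by
  simp only [quadr, map_add, map_sub, map_mul, map_pow, aeval_X, aeval_C]

end

section

variable {V : Type} [Fintype V] {q : ℕ} {H : Fin q → Fin 3 → ℚ} {Ω : Type} [Field Ω] [Algebra ℚ Ω]

/-- a pencil on which all values are proportional -/
structure Deg (D : HD V H Ω) (G G' : Fin 3 → ℚ) (a b : ℚ) : Prop where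
  ind : LinearIndependent ℚ ![G, G']
  ha : bil D.c D.P D.P' G G' = a • bil D.c D.P D.P' G G
  hb : bil D.c D.P D.P' G' G' = b • bil D.c D.P D.P' G G

lemma exists_deg (D : HD V H Ω) (hNL : NoLine D) (h : ¬ NoPair D) : ∃ G G' a b, Deg D G G' a b := by
  unfold NoPair at h
  push Not at h
  obtain ⟨G, G', hind, hlt⟩ := h
  have hG : G ≠ 0 := by
    have := hind.ne_zero 0
    simpa using this
  set W := Submodule.span ℚ {bil D.c D.P D.P' G G, bil D.c D.P D.P' G G',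
    bil D.c D.P D.P' G' G'} with hW
  have hfd : FiniteDimensional ℚ W := FiniteDimensional.span_of_finite ℚ (by simp)
  have w0 : bil D.c D.P D.P' G G ∈ W := Submodule.subset_span (by simp)
  have w1 : bil D.c D.P D.P' G G' ∈ W := Submodule.subset_span (by simp)
  have w2 : bil D.c D.P D.P' G' G' ∈ W := Submodule.subset_span (by simp)
  have hu : (⟨bil D.c D.P D.P' G G, w0⟩ : W) ≠ 0 := by
    intro h0
    exact bil_ne D (hNL G hG) (congrArg Subtype.val h0)
  have hfr : Module.finrank ℚ W = 1 := by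
    have : 0 < Module.finrank ℚ W := Module.finrank_pos_iff_exists_ne_zero.2 ⟨_, hu⟩
    omega
  have hall := (finrank_eq_one_iff_of_nonzero' _ hu).1 hfr
  obtain ⟨a, ha⟩ := hall ⟨_, w1⟩
  obtain ⟨b, hb⟩ := hall ⟨_, w2⟩
  exact ⟨G, G', a, b, hind, (congrArg Subtype.val ha).symm, (congrArg Subtype.val hb).symm⟩

lemma Deg.swap {D : HD V H Ω} {G G' : Fin 3 → ℚ} {a b : ℚ} (h : Deg D G G' a b) :
    Deg D.swap G G' a b := by
  refine ⟨h.ind, ?_, ?_⟩
  · show bil D.c D.P' D.P G G' = a • bil D.c D.P' D.P G G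
    rw [bil_swap D.c D.P D.P', bil_swap D.c D.P D.P', h.ha]
  · show bil D.c D.P' D.P G' G' = b • bil D.c D.P' D.P G G
    rw [bil_swap D.c D.P D.P', bil_swap D.c D.P D.P', h.hb]

lemma Deg.prop {D : HD V H Ω} {G G' : Fin 3 → ℚ} {a b : ℚ} (h : Deg D G G' a b)
    {X Y : Fin 3 → ℚ} (hX : Inn G G' X) (hY : Inn G G' Y) :
    ∃ κ : ℚ, bil D.c D.P D.P' X Y = κ • bil D.c D.P D.P' G G := by
  obtain ⟨x1, x2, rfl⟩ := hX
  obtain ⟨y1, y2, rfl⟩ := hY
  refine ⟨x1 * y1 + (x1 * y2 + x2 * y1) * a + x2 * y2 * b, ?_⟩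
  simp only [bil_add_left, bil_add_right, bil_smul_left, bil_smul_right]
  rw [bil_comm _ _ _ G' G, h.ha, h.hb]
  module

/-- the quadratic relation between two forms of the pencil -/
lemma Deg.quad {D : HD V H Ω} {G G' : Fin 3 → ℚ} {a b : ℚ} (h : Deg D G G' a b) (hNL : NoLine D)
    {X Y : Fin 3 → ℚ} (hX : Inn G G' X) (hY : Inn G G' Y) (hY0 : Y ≠ 0) :
    ∃ κ₁ κ₂ : ℚ, lf D.P X ^ 2 + algebraMap ℚ Ω κ₁ * (lf D.P X * lf D.P Y) +
      algebraMap ℚ Ω κ₂ * lf D.P Y ^ 2 = 0 ∧ bil D.c D.P D.P' X X = κ₂ • bil D.c D.P D.P' Y Y := by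
  have h20 : (2 : Ω) ≠ 0 := by
    have : CharZero Ω := algebraRat.charZero Ω
    exact two_ne_zero
  obtain ⟨μ, hμ⟩ := h.prop hY hY
  obtain ⟨κ, hκ⟩ := h.prop hX hY
  obtain ⟨l, hl⟩ := h.prop hX hX
  have hYne := bil_ne D (hNL Y hY0)
  have hμ0 : μ ≠ 0 := by
    rintro rfl
    rw [zero_smul] at hμ
    exact hYne hμ
  have hGG : bil D.c D.P D.P' G G = μ⁻¹ • bil D.c D.P D.P' Y Y := by
    rw [hμ, smul_smul, inv_mul_cancel₀ hμ0, one_smul]
  rw [hGG, smul_smul] at hκ hl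
  have hl' := hl
  refine ⟨-2 * (κ * μ⁻¹), l * μ⁻¹, ?_, hl'⟩
  rw [Algebra.smul_def] at hκ hl
  unfold bil at hκ hl
  have hy' : lf D.P' Y ≠ 0 := fun h0 => hNL Y hY0 ((D.conj Y).2 h0)
  have e1 : lf D.P X * lf D.P' Y + lf D.P Y * lf D.P' X =
      algebraMap ℚ Ω (κ * μ⁻¹) * (2 * (lf D.P Y * lf D.P' Y)) := by
    apply mul_left_cancel₀ D.c_ne
    rw [hκ]; ring
  have e2 : lf D.P X * lf D.P' X = algebraMap ℚ Ω (l * μ⁻¹) * (lf D.P Y * lf D.P' Y) := by
    apply mul_left_cancel₀ (mul_ne_zero h20 D.c_ne)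
    linear_combination hl
  apply mul_left_cancel₀ hy'
  have e3 : algebraMap ℚ Ω (-2 * (κ * μ⁻¹)) = -2 * algebraMap ℚ Ω (κ * μ⁻¹) := by
    rw [map_mul, map_neg, map_ofNat]
  rw [mul_zero, e3]
  linear_combination (lf D.P X) * e1 - (lf D.P Y) * e2

lemma Deg.lp {D : HD V H Ω} {G G' : Fin 3 → ℚ} {a b : ℚ} (h : Deg D G G' a b) (hNL : NoLine D)
    {X Y : Fin 3 → ℚ} (hX : Inn G G' X) (hY : Inn G G' Y) (hY0 : Y ≠ 0) {v : V} {β : ℝ}
    (hl : D.LP v Y β) : D.LP v X β := by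
  obtain ⟨κ₁, κ₂, hκ, _⟩ := h.quad hNL hX hY hY0
  exact D.lp_quad v X Y κ₁ κ₂ β hκ hl

/-- two independent forms of positive weight are in the pencil -/
lemma Deg.inn {D : HD V H Ω} {G G' : Fin 3 → ℚ} {a b : ℚ} (h : Deg D G G' a b) (hNL : NoLine D)
    {X Y : Fin 3 → ℚ} (hXY : LinearIndependent ℚ ![X, Y]) {v : V} {β : ℝ} (hβ : 0 < β)
    (hX : D.LP v X β) (hY : D.LP v Y β) : Inn G G' X ∧ Inn G G' Y := by
  obtain ⟨K, hK0, hK1, hK2⟩ := exists_common hXY h.ind
  have lK : D.LP v K β := lp_comb D v hX hY hK1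
  have lG : D.LP v G β := h.lp hNL (inn_left _ _) hK2 hK0 lK
  have lG' : D.LP v G' β := h.lp hNL (inn_right _ _) hK2 hK0 lK
  have key : ∀ Z, D.LP v Z β → Inn G G' Z := by
    intro Z hZ
    by_contra hno
    have := D.lp_three v ![G, G', Z] β (li3_of_not_inn h.ind hno) (fun i => by
      fin_cases i
      · exact lG
      · exact lG'
      · exact hZ)
    linarith
  exact ⟨key X hX, key Y hY⟩

/-- no rational zero of the norm form -/
lemma Deg.aniso {D : HD V H Ω} {G G' : Fin 3 → ℚ} {a b : ℚ} (h : Deg D G G' a b) (hNL : NoLine D)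
    (u w : ℚ) (h0 : w ^ 2 - 2 * a * (u * w) + b * u ^ 2 = 0) : u = 0 ∧ w = 0 := by
  by_contra hne
  have hu : u ≠ 0 := by
    intro hu
    rw [hu] at h0
    have : w = 0 := by
      have h1 : w ^ 2 = 0 := by linarith
      exact pow_eq_zero_iff (two_ne_zero) |>.1 h1
    exact hne ⟨hu, this⟩
  have h20 : (2 : Ω) ≠ 0 := by
    have : CharZero Ω := algebraRat.charZero Ω
    exact two_ne_zero
  have hG : G ≠ 0 := by
    have := h.ind.ne_zero 0
    simpa using this
  have hg' : lf D.P' G ≠ 0 := fun h0 => hNL G hG ((D.conj G).2 h0)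
  have ha := h.ha
  have hb := h.hb
  rw [Algebra.smul_def] at ha hb
  unfold bil at ha hb
  have e1 : lf D.P G * lf D.P' G' + lf D.P G' * lf D.P' G =
      algebraMap ℚ Ω a * (2 * (lf D.P G * lf D.P' G)) := by
    apply mul_left_cancel₀ D.c_ne
    rw [ha]; ring
  have e2 : lf D.P G' * lf D.P' G' = algebraMap ℚ Ω b * (lf D.P G * lf D.P' G) := by
    apply mul_left_cancel₀ (mul_ne_zero h20 D.c_ne)
    linear_combination hb
  have e3 : lf D.P G' ^ 2 - 2 * algebraMap ℚ Ω a * (lf D.P G' * lf D.P G) +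
      algebraMap ℚ Ω b * lf D.P G ^ 2 = 0 := by
    apply mul_left_cancel₀ hg'
    rw [mul_zero]
    linear_combination (lf D.P G') * e1 - (lf D.P G) * e2
  set s := w / u with hs
  have hsq : s ^ 2 - 2 * a * s + b = 0 := by
    rw [hs]
    field_simp
    linarith
  have hb' : b = s * (2 * a - s) := by linarith
  have hfac : (lf D.P G' - algebraMap ℚ Ω s * lf D.P G) *
      (lf D.P G' - algebraMap ℚ Ω (2 * a - s) * lf D.P G) = 0 := by
    rw [← e3, hb', map_sub, map_mul, map_mul, map_sub, map_mul, map_ofNat]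
    ring
  have key : ∀ σ : ℚ, lf D.P G' - algebraMap ℚ Ω σ * lf D.P G ≠ 0 := by
    intro σ hσ
    have h1 : lf D.P ((1 : ℚ) • G' + (-σ) • G) = 0 := by
      rw [lf_add, lf_smul, lf_smul, map_one, map_neg, ← hσ]
      ring
    refine hNL _ ?_ h1
    intro h2
    have := LinearIndependent.pair_iff.1 h.ind (-σ) 1 (by rw [← h2]; module)
    exact one_ne_zero this.2
  rcases mul_eq_zero.1 hfac with h1 | h1
  · exact key _ h1
  · exact key _ h1

/-- the equation of the quadric -/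
lemma Deg.quadr {D : HD V H Ω} {G G' : Fin 3 → ℚ} {a b : ℚ} (h : Deg D G G' a b) (hNL : NoLine D)
    (K : Fin 3 → ℚ) : aeval ![bil D.c D.P D.P' G G, bil D.c D.P D.P' K K,
      bil D.c D.P D.P' G K, bil D.c D.P D.P' G' K] (quadr a b) = 0 := by
  have h20 : (2 : Ω) ≠ 0 := by
    have : CharZero Ω := algebraRat.charZero Ω
    exact two_ne_zero
  have hG : G ≠ 0 := by
    have := h.ind.ne_zero 0
    simpa using this
  have hg : lf D.P G ≠ 0 := hNL G hG
  have hg' : lf D.P' G ≠ 0 := fun h0 => hNL G hG ((D.conj G).2 h0)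
  have ha := h.ha
  have hb := h.hb
  rw [Algebra.smul_def] at ha hb
  unfold bil at ha hb
  have e1 : lf D.P G * lf D.P' G' + lf D.P G' * lf D.P' G =
      algebraMap ℚ Ω a * (2 * (lf D.P G * lf D.P' G)) := by
    apply mul_left_cancel₀ D.c_ne
    rw [ha]; ring
  have e2 : lf D.P G' * lf D.P' G' = algebraMap ℚ Ω b * (lf D.P G * lf D.P' G) := by
    apply mul_left_cancel₀ (mul_ne_zero h20 D.c_ne)
    linear_combination hb
  have q1 : lf D.P G' ^ 2 - 2 * algebraMap ℚ Ω a * (lf D.P G' * lf D.P G) +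
      algebraMap ℚ Ω b * lf D.P G ^ 2 = 0 := by
    apply mul_left_cancel₀ hg'
    rw [mul_zero]
    linear_combination (lf D.P G') * e1 - (lf D.P G) * e2
  have q2 : lf D.P' G' ^ 2 - 2 * algebraMap ℚ Ω a * (lf D.P' G' * lf D.P' G) +
      algebraMap ℚ Ω b * lf D.P' G ^ 2 = 0 := by
    apply mul_left_cancel₀ hg
    rw [mul_zero]
    linear_combination (lf D.P' G') * e1 - (lf D.P' G) * e2
  rw [aeval_quadr]
  show algebraMap ℚ Ω (b - a ^ 2) * (bil D.c D.P D.P' G G * bil D.c D.P D.P' K K) -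
    (bil D.c D.P D.P' G' K ^ 2 - algebraMap ℚ Ω (2 * a) *
      (bil D.c D.P D.P' G K * bil D.c D.P D.P' G' K) +
      algebraMap ℚ Ω b * bil D.c D.P D.P' G K ^ 2) = 0
  unfold bil
  rw [map_sub, map_pow, map_mul, map_ofNat]
  linear_combination -(D.c ^ 2) * (lf D.P' K ^ 2 * q1 + lf D.P K ^ 2 * q2 +
    lf D.P K * lf D.P' K * (2 * e2 - 2 * algebraMap ℚ Ω a * e1))

lemma Deg.span {D : HD V H Ω} {G G' : Fin 3 → ℚ} {a b : ℚ} (h : Deg D G G' a b)
    {K : Fin 3 → ℚ} (hK : LinearIndependent ℚ ![G, G', K]) :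
    Submodule.span ℚ (Set.range ![bil D.c D.P D.P' G G, bil D.c D.P D.P' K K,
      bil D.c D.P D.P' G K, bil D.c D.P D.P' G' K]) = A1 D.c D.P D.P' := by
  set W := Submodule.span ℚ (Set.range ![bil D.c D.P D.P' G G, bil D.c D.P D.P' K K,
      bil D.c D.P D.P' G K, bil D.c D.P D.P' G' K]) with hW
  have w0 : bil D.c D.P D.P' G G ∈ W := Submodule.subset_span ⟨0, rfl⟩
  have w1 : bil D.c D.P D.P' K K ∈ W := Submodule.subset_span ⟨1, rfl⟩
  have w2 : bil D.c D.P D.P' G K ∈ W := Submodule.subset_span ⟨2, rfl⟩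
  have w3 : bil D.c D.P D.P' G' K ∈ W := Submodule.subset_span ⟨3, rfl⟩
  have w4 : bil D.c D.P D.P' G G' ∈ W := by rw [h.ha]; exact W.smul_mem _ w0
  have w5 : bil D.c D.P D.P' G' G' ∈ W := by rw [h.hb]; exact W.smul_mem _ w0
  refine le_antisymm ?_ (A1_le_of hK _ ?_)
  · rw [hW, Submodule.span_le]
    rintro _ ⟨i, rfl⟩
    fin_cases i <;> exact bil_mem _ _ _ _ _
  · intro i j hij
    fin_cases i <;> fin_cases j <;> first
      | exact absurd hij (by decide)
      | exact w0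
      | exact w1
      | exact w2
      | exact w3
      | exact w4
      | exact w5

/-- a homogeneous relation for all generators of `A1` -/
lemma Deg.exists_rel (hq : 4 ≤ q) (hH : GenPos H) {D : HD V H Ω} {G G' : Fin 3 → ℚ} {a b : ℚ}
    (h : Deg D G G' a b) (hNL : NoLine D) (h3 : 3 ≤ Module.finrank ℚ (A1 D.c D.P D.P')) {n : ℕ}
    (x' : Fin n → Ω) (hx' : Submodule.span ℚ (Set.range x') = A1 D.c D.P D.P') :
    ∃ (k : ℕ) (Q : MvPolynomial (Fin n) ℚ), Q.IsHomogeneous k ∧ Q ≠ 0 ∧ aeval x' Q = 0 := by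
  obtain ⟨K, hK⟩ : ∃ K, ¬ Inn G G' K := by
    by_contra hno
    push Not at hno
    exact inn_three hH (i := ⟨0, by omega⟩) (j := ⟨1, by omega⟩) (k := ⟨2, by omega⟩) (by simp)
      (by simp) (by simp) (hno _) (hno _) (hno _)
  have hK := li3_of_not_inn h.ind hK
  set x : Fin 4 → Ω := ![bil D.c D.P D.P' G G, bil D.c D.P D.P' K K,
      bil D.c D.P D.P' G K, bil D.c D.P D.P' G' K] with hx
  have hsp : Submodule.span ℚ (Set.range x) = A1 D.c D.P D.P' := h.span hK
  obtain ⟨j, hj, hjm⟩ : ∃ j : Fin 4, (j = 2 ∨ j = 3) ∧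
      x j ∉ Submodule.span ℚ (Set.range ![x 0, x 1]) := by
    by_contra hno
    push Not at hno
    have hle : A1 D.c D.P D.P' ≤ Submodule.span ℚ (Set.range ![x 0, x 1]) := by
      rw [← hsp, Submodule.span_le]
      rintro _ ⟨i, rfl⟩
      fin_cases i
      · exact Submodule.subset_span ⟨0, rfl⟩
      · exact Submodule.subset_span ⟨1, rfl⟩
      · exact hno 2 (Or.inl rfl)
      · exact hno 3 (Or.inr rfl)
    have hfd : FiniteDimensional ℚ (Submodule.span ℚ (Set.range ![x 0, x 1])) :=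
      FiniteDimensional.span_of_finite ℚ (Set.finite_range _)
    have h1 := Submodule.finrank_mono hle
    have h2 := finrank_range_le_card (R := ℚ) ![x 0, x 1]
    unfold Set.finrank at h2
    rw [Fintype.card_fin] at h2
    omega
  obtain ⟨f, hf1, hf2⟩ := Submodule.exists_le_ker_of_notMem hjm
  have f0 : f (x 0) = 0 := hf2 (Submodule.subset_span ⟨0, rfl⟩)
  have f1 : f (x 1) = 0 := hf2 (Submodule.subset_span ⟨1, rfl⟩)
  obtain ⟨Q', h4, h5, h6⟩ := transfer x x' (fun i => by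
    rw [hx', ← hsp]
    exact Submodule.subset_span ⟨i, rfl⟩) (B.quadr a b) (quadr_hom a b) (h.quadr hNL K) f (by
      intro h0
      rw [aeval_quadr, f0, f1] at h0
      have h0' : f (x 3) ^ 2 - 2 * a * (f (x 2) * f (x 3)) + b * f (x 2) ^ 2 = 0 := by
        have : algebraMap ℚ ℚ = RingHom.id ℚ := rfl
        rw [this] at h0
        simp only [RingHom.id_apply] at h0
        linarith
      obtain ⟨g1, g2⟩ := h.aniso hNL _ _ h0'
      rcases hj with rfl | rfl
      · exact hf1 g1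
      · exact hf1 g2)
  exact ⟨2, Q', h4, h5, h6⟩

end

end Pool.Agent.Y734.B
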