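import Mathlib
import Pool.Agent.Y734.B.Pair

/-!
# Pencils of lines with proportional values: the case `finrank A1 = 4`
-/

set_option autoImplicit false

namespace Pool.Agent.Y734.B

open MvPolynomial

section

variable {V : Type} [Fintype V] {q : ℕ} {H : Fin q → Fin 3 → ℚ} {Ω : Type} [Field Ω] [Algebra ℚ Ω]

lemma quadr_eq (a b : ℚ) : quadr a b =
    monomial (Finsupp.single 0 1 + Finsupp.single 1 1) (b - a ^ 2) -
      (monomial (Finsupp.single 3 2) 1 - monomial (Finsupp.single 2 1 + Finsupp.single 3 1) (2 * a) +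
        monomial (Finsupp.single 2 2) b) := by
  unfold quadr
  have e1 : (X 0 * X 1 : MvPolynomial (Fin 4) ℚ) =
      monomial (Finsupp.single 0 1 + Finsupp.single 1 1) 1 := by
    rw [← mul_one (1 : ℚ), ← monomial_mul]; rfl
  have e2 : (X 2 * X 3 : MvPolynomial (Fin 4) ℚ) =
      monomial (Finsupp.single 2 1 + Finsupp.single 3 1) 1 := by
    rw [← mul_one (1 : ℚ), ← monomial_mul]; rfl
  rw [e1, e2, X_pow_eq_monomial, X_pow_eq_monomial, C_mul_monomial, C_mul_monomial, C_mul_monomial]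
  simp

lemma quadr_coeff (a b : ℚ) {m : Fin 4 →₀ ℕ} (hm : coeff m (quadr a b) ≠ 0) (h0 : m 0 = 0) :
    m 1 = 0 := by
  by_contra h1
  apply hm
  rw [quadr_eq, coeff_sub, coeff_add, coeff_sub, coeff_monomial, coeff_monomial, coeff_monomial,
    coeff_monomial]
  have n1 : (Finsupp.single (0 : Fin 4) 1 + Finsupp.single 1 1 : Fin 4 →₀ ℕ) ≠ m := by
    intro h
    rw [← h] at h0
    simp at h0
  have n2 : (Finsupp.single (3 : Fin 4) 2 : Fin 4 →₀ ℕ) ≠ m := by
    intro h
    rw [← h] at h1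
    simp at h1
  have n3 : (Finsupp.single (2 : Fin 4) 1 + Finsupp.single 3 1 : Fin 4 →₀ ℕ) ≠ m := by
    intro h
    rw [← h] at h1
    simp at h1
  have n4 : (Finsupp.single (2 : Fin 4) 2 : Fin 4 →₀ ℕ) ≠ m := by
    intro h
    rw [← h] at h1
    simp at h1
  rw [if_neg n1, if_neg n2, if_neg n3, if_neg n4]
  simp

lemma quadr_ne (a b : ℚ) : quadr a b ≠ 0 := by
  intro h
  have h1 := congrArg (aeval (![0, 0, 0, 1] : Fin 4 → ℚ)) h
  rw [aeval_quadr, map_zero] at h1
  simp at h1

/-- the special position: the pair of `P` in the pencil -/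
lemma pair_special {D : HD V H Ω} (hNL : NoLine D) (hR : RelAll D) (v : V)
    (h4 : Module.finrank ℚ (A1 D.c D.P D.P') = 4) {p r s : Fin q} {a b : ℚ}
    (hprs : LinearIndependent ℚ ![H p, H r, H s]) (h : Deg D (H p) (H r) a b) {T : ℝ}
    (hT : T ≤ (D.α v p + D.α' v p) + (D.α v s + D.α' v s)) : Good D v T := by
  set x : Fin 4 → Ω := ![bil D.c D.P D.P' (H p) (H p), bil D.c D.P D.P' (H s) (H s),
      bil D.c D.P D.P' (H p) (H s), bil D.c D.P D.P' (H r) (H s)] with hx
  have hspan : Submodule.span ℚ (Set.range x) = A1 D.c D.P D.P' := h.span hprs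
  have hxli : LinearIndependent ℚ x := by
    rw [linearIndependent_iff_card_eq_finrank_span]
    unfold Set.finrank
    rw [hspan, h4, Fintype.card_fin]
  obtain ⟨e, F, hF⟩ := hR x hspan
  have he := rel_two_le hxli hF
  obtain ⟨m, hm⟩ := EF.exists_lexMin hF.2.1.ne_zero
  have hm0 := lexmin_zero he hF hm
  -- `F` divides the quadric
  obtain ⟨E, hE⟩ := hF.2.2.2 2 _ (quadr_hom a b) (h.quadr hNL (H s))
  have hq0 := quadr_ne a b
  have hE0 : E ≠ 0 := by
    rintro rfl
    rw [mul_zero] at hE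
    exact hq0 hE
  have hdeg := totalDegree_mul_of_isDomain hF.2.1.ne_zero hE0
  rw [← hE, (quadr_hom a b).totalDegree hq0, hF.1.totalDegree hF.2.1.ne_zero] at hdeg
  have hEd : E.totalDegree = 0 := by omega
  have hEC := (totalDegree_eq_zero_iff_eq_C (p := E)).1 hEd
  have hm1 : m 1 = 0 := by
    refine quadr_coeff a b ?_ hm0
    rw [hE, hEC, mul_comm, coeff_C_mul]
    refine mul_ne_zero ?_ (mem_support_iff.1 hm.1)
    intro h0
    rw [h0, C_0] at hEC
    exact hE0 hEC
  refine ⟨x, e, F, m, ![D.α v p + D.α' v p, D.α v s + D.α' v s, 0, 0], hspan, by omega, hF, hm,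
    ?_, ?_⟩
  · intro i
    fin_cases i
    · exact lev_self D v p
    · exact lev_self D v s
    · exact D.lev_mem v _ (bil_mem _ _ _ _ _)
    · exact D.lev_mem v _ (bil_mem _ _ _ _ _)
  · rw [Fin.sum_univ_four, Fin.sum_univ_four, hm0, hm1]
    show T ≤ (D.α v p + D.α' v p + (D.α v s + D.α' v s) + 0 + 0) -
      ((D.α v p + D.α' v p) * ((0 : ℕ) : ℝ) + (D.α v s + D.α' v s) * ((0 : ℕ) : ℝ) +
        0 * ((m 2 : ℕ) : ℝ) + 0 * ((m 3 : ℕ) : ℝ)) / e
    have e1 : ((D.α v p + D.α' v p) * ((0 : ℕ) : ℝ) + (D.α v s + D.α' v s) * ((0 : ℕ) : ℝ) +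
        0 * ((m 2 : ℕ) : ℝ) + 0 * ((m 3 : ℕ) : ℝ)) / e = 0 := by
      simp
    rw [e1]
    linarith

lemma Deg.of_inn {D : HD V H Ω} {G G' : Fin 3 → ℚ} {a b : ℚ} (h : Deg D G G' a b)
    (hNL : NoLine D) {X Y : Fin 3 → ℚ} (hXY : LinearIndependent ℚ ![X, Y]) (hX : Inn G G' X)
    (hY : Inn G G' Y) : ∃ a' b', Deg D X Y a' b' := by
  obtain ⟨κ, hκ⟩ := h.prop hX hX
  obtain ⟨l, hl⟩ := h.prop hX hY
  obtain ⟨μ, hμ⟩ := h.prop hY hY
  have hX0 : X ≠ 0 := by
    have := hXY.ne_zero 0
    simpa using this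
  have hκ0 : κ ≠ 0 := by
    rintro rfl
    rw [zero_smul] at hκ
    exact bil_ne D (hNL X hX0) hκ
  have hGG : bil D.c D.P D.P' G G = κ⁻¹ • bil D.c D.P D.P' X X := by
    rw [hκ, smul_smul, inv_mul_cancel₀ hκ0, one_smul]
  rw [hGG, smul_smul] at hl hμ
  exact ⟨_, _, hXY, hl, hμ⟩

/-- the local gain, one side -/
lemma pair_side (hq : 4 ≤ q) (hH : GenPos H) {D : HD V H Ω} (hNL : NoLine D) (hR : RelAll D)
    {G G' : Fin 3 → ℚ} {a b : ℚ} (hd : Deg D G G' a b) (v : V)
    (h4 : Module.finrank ℚ (A1 D.c D.P D.P') = 4) {p r s t : Fin q} (h : Top D v p r s t)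
    (ht : D.α' v t ≤ 0) : Good D v ((∑ i, (D.α v i + D.α' v i)) / 2) := by
  have ha := h.le
  have ha' := h.le'
  have hb0 := D.α_nonneg v r
  have hp0 := D.α_nonneg' v p
  have hr0 := D.α_nonneg' v r
  have hs0 := D.α_nonneg v s
  have single : ∀ i, D.α v p + D.α v r + (D.α' v s + D.α' v t) ≤
      2 * (D.α v i + D.α' v i) → Good D v ((∑ i, (D.α v i + D.α' v i)) / 2) := by
    intro i hi
    refine good_one hR v h4 (bil_H_ne D i) (bil_mem _ _ _ _ _) (lev_self D v i) ?_
    rw [h.sum]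
    linarith
  by_cases hb : 0 < D.α v r
  · obtain ⟨i1, i2⟩ := hd.inn hNL (linInd_pair hH hq h.hpr) hb
      (D.lp_mono v _ _ _ ha (D.lp_α v p)) (D.lp_α v r)
    by_cases hps : s = p
    · subst hps
      exact single s (by linarith)
    · by_cases hrs : s = r
      · subst hrs
        rcases le_total (D.α v p) (D.α v s + D.α' v s) with h1 | h1
        · exact single s (by linarith)
        · exact single p (by linarith)
      · obtain ⟨a', b', hd'⟩ := hd.of_inn hNL (linInd_pair hH hq h.hpr) i1 i2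
        refine pair_special hNL hR v h4
          (hH p r s h.hpr (fun e => hps e.symm) (fun e => hrs e.symm)) hd' ?_
        rw [h.sum]
        linarith
  · rcases le_total (D.α v p) (D.α' v s) with h1 | h1
    · exact single s (by linarith)
    · exact single p (by linarith)

/-- the local gain -/
lemma pair_local (hq : 4 ≤ q) (hH : GenPos H) {D : HD V H Ω} (hNL : NoLine D) (hR : RelAll D)
    {G G' : Fin 3 → ℚ} {a b : ℚ} (hd : Deg D G G' a b) (v : V)
    (h4 : Module.finrank ℚ (A1 D.c D.P D.P') = 4) :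
    Good D v ((∑ i, (D.α v i + D.α' v i)) / 2) := by
  obtain ⟨p, r, s, t, h⟩ := exists_top hq hH D v
  have swapped : Good D.swap v ((∑ i, (D.swap.α v i + D.swap.α' v i)) / 2) →
      Good D v ((∑ i, (D.α v i + D.α' v i)) / 2) := by
    rintro ⟨x, e, F, m, w, h1, h2, h3, h4, h5, h6⟩
    refine ⟨x, e, F, m, w, ?_, h2, h3, h4, h5, ?_⟩
    · rw [h1]
      exact A1_swap D.c D.P D.P'
    · refine le_trans (le_of_eq ?_) h6
      congr 1
      exact Finset.sum_congr rfl fun i _ => add_comm _ _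
  have h4' : Module.finrank ℚ (A1 D.swap.c D.swap.P D.swap.P') = 4 := by
    show Module.finrank ℚ (A1 D.c D.P' D.P) = 4
    rw [A1_swap]
    exact h4
  by_cases ht : D.α' v t ≤ 0
  · exact pair_side hq hH hNL hR hd v h4 h ht
  · by_cases hr : D.α v r ≤ 0
    · exact swapped (pair_side hq hH hNL.swap hR.swap hd.swap v h4' h.swap hr)
    · push Not at ht hr
      have ha := h.le
      have ha' := h.le'
      obtain ⟨i1, i2⟩ := hd.inn hNL (linInd_pair hH hq h.hpr) hr
        (D.lp_mono v _ _ _ ha (D.lp_α v p)) (D.lp_α v r)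
      obtain ⟨j1, j2⟩ := hd.swap.inn hNL.swap (linInd_pair hH hq h.hst) ht
        (D.lp_mono' v _ _ _ ha' (D.lp_α' v s)) (D.lp_α' v t)
      have single : ∀ i, D.α v p + D.α v r + (D.α' v s + D.α' v t) ≤
          2 * (D.α v i + D.α' v i) → Good D v ((∑ i, (D.α v i + D.α' v i)) / 2) := by
        intro i hi
        refine good_one hR v h4 (bil_H_ne D i) (bil_mem _ _ _ _ _) (lev_self D v i) ?_
        rw [h.sum]
        linarith
      by_cases hps : s = p
      · subst hps
        exact single s (by linarith)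
      · by_cases hrs : s = r
        · by_cases htp : t = p
          · rcases le_total (D.α v p + D.α' v t) (D.α' v s + D.α v r) with h1 | h1
            · refine single s ?_
              have : D.α v s = D.α v r := by rw [hrs]
              linarith
            · refine single p ?_
              have : D.α' v p = D.α' v t := by rw [htp]
              linarith
          · exact (inn_three hH h.hpr (Ne.symm htp) (fun e => h.hst (hrs.trans e)) i1 i2 j2).elim
        · exact (inn_three hH h.hpr (Ne.symm hps) (Ne.symm hrs) i1 i2 j1).elim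

end

end Pool.Agent.Y734.B
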