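import Mathlib
import Pool.Agent.Y734.B.PairFour
import Pool.Agent.Y734.B.Line

/-!
# The abstract theorem without genericity
-/

set_option autoImplicit false

namespace Pool.Agent.Y734.B

open MvPolynomial

section

variable {V : Type} [Fintype V] {q : ℕ} {H : Fin q → Fin 3 → ℚ} {Ω : Type} [Field Ω] [Algebra ℚ Ω]

lemma relAll_of (hdim : DimStmt) (D : HD V H Ω) (hs : ¬ Small D)
    (h : ∀ x : Fin 4 → Ω, Submodule.span ℚ (Set.range x) = A1 D.c D.P D.P' →
      ∃ (k : ℕ) (G : MvPolynomial (Fin 4) ℚ), G.IsHomogeneous k ∧ G ≠ 0 ∧ aeval x G = 0) :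
    RelAll D := by
  intro x hx
  rcases hdim Ω x (h x hx) with h1 | ⟨C, hC⟩
  · exact h1
  · rw [hx] at hC
    exact absurd ⟨C, hC⟩ hs

lemma small_three (hdim3 : Dim3Stmt) (D : HD V H Ω)
    (h3 : Module.finrank ℚ (A1 D.c D.P D.P') = 3)
    (h : ∀ x : Fin 3 → Ω, Submodule.span ℚ (Set.range x) = A1 D.c D.P D.P' →
      ∃ (k : ℕ) (G : MvPolynomial (Fin 3) ℚ), G.IsHomogeneous k ∧ G ≠ 0 ∧ aeval x G = 0) :
    Small D := by
  let B := Module.finBasisOfFinrankEq ℚ (A1 D.c D.P D.P') h3
  set x : Fin 3 → Ω := fun i => (B i : Ω) with hx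
  have hsp : Submodule.span ℚ (Set.range x) = A1 D.c D.P D.P' := by
    have h1 : Set.range x = (A1 D.c D.P D.P').subtype '' Set.range B := by
      rw [← Set.range_comp]
      rfl
    rw [h1, Submodule.span_image, B.span_eq, Submodule.map_top, Submodule.range_subtype]
  obtain ⟨C, hC⟩ := hdim3 Ω x (h x hsp)
  rw [hsp] at hC
  exact ⟨C, hC⟩

/-- the determinant as a homogeneous relation -/
lemma det_rel (D : HD V H Ω) (hNL : NoLine D) (hNP : NoPair D)
    (h4 : Module.finrank ℚ (A1 D.c D.P D.P') = 4) (x : Fin 4 → Ω)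
    (hspan : Submodule.span ℚ (Set.range x) = A1 D.c D.P D.P') :
    ∃ (k : ℕ) (G : MvPolynomial (Fin 4) ℚ), G.IsHomogeneous k ∧ G ≠ 0 ∧ aeval x G = 0 := by
  have hx : LinearIndependent ℚ x := by
    rw [linearIndependent_iff_card_eq_finrank_span]
    unfold Set.finrank
    rw [hspan, h4, Fintype.card_fin]
  have hmem : ∀ G G', bil D.c D.P D.P' G G' ∈ Submodule.span ℚ (Set.range x) := by
    intro G G'
    rw [hspan]
    exact bil_mem _ _ _ _ _
  refine DET.det Ω x hx (fun i j => bil D.c D.P D.P' (Pi.single i 1) (Pi.single j 1))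
      (fun i j => bil_comm _ _ _ _ _) (det_bil _ _ _ _) (fun i j => hmem _ _) ?_ ?_
  · intro G hG
    have : ∑ i, ∑ j, algebraMap ℚ Ω (G i * G j) *
        bil D.c D.P D.P' (Pi.single i 1) (Pi.single j 1) = bil D.c D.P D.P' G G := by
      simp only [Fin.sum_univ_three, bil, lf_single, map_mul]
      simp only [lf, Fin.sum_univ_three]
      ring
    rw [this]
    exact bil_ne D (hNL G hG)
  · refine hNP _ _ ?_
    have h := linInd_single.comp (![0, 1] : Fin 2 → Fin 3) (by decide)
    have e : ((fun i : Fin 3 => (Pi.single i 1 : Fin 3 → ℚ)) ∘ (![0, 1] : Fin 2 → Fin 3)) =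
        ![(Pi.single 0 1 : Fin 3 → ℚ), Pi.single 1 1] := by
      funext i
      fin_cases i <;> rfl
    rwa [e] at h

end

/-- **the abstract main theorem, without genericity** -/
theorem abs2 (hgrow : GrowStmt) (hdim : DimStmt) (hdim3 : Dim3Stmt) : AbsStmt2 := by
  intro V _ q hq H hH Ω _ _ D hD
  by_cases hNL : NoLine D
  · have h6 := finrank_A1_le D.c D.P D.P'
    by_cases h2 : Module.finrank ℚ (A1 D.c D.P D.P') ≤ 2
    · exact abs_two hq hH D hNL h2
    have : Module.finrank ℚ (A1 D.c D.P D.P') = 3 ∨ Module.finrank ℚ (A1 D.c D.P D.P') = 4 ∨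
        Module.finrank ℚ (A1 D.c D.P D.P') = 5 ∨ Module.finrank ℚ (A1 D.c D.P D.P') = 6 := by
      omega
    rcases this with h | h | h | h
    · by_cases hNP : NoPair D
      · exact abs_three hq hH D hNP h.le
      · obtain ⟨G, G', a, b, hd⟩ := exists_deg D hNL hNP
        exact abs_small hgrow hq hH D hNL (small_three hdim3 D h fun x hx =>
          hd.exists_rel hq hH hNL h.ge x hx)
    · by_cases hs : Small D
      · exact abs_small hgrow hq hH D hNL hs
      · by_cases hNP : NoPair D
        · exact abs_four hq hH D hNL hNP (relAll_of hdim D hs fun x hx =>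
            det_rel D hNL hNP h x hx) h
        · obtain ⟨G, G', a, b, hd⟩ := exists_deg D hNL hNP
          have hR : RelAll D := relAll_of hdim D hs fun x hx =>
            hd.exists_rel hq hH hNL (by omega) x hx
          have h8 := sum_good D _ fun v => pair_local hq hH hNL hR hd v h
          rw [← Finset.sum_div] at h8
          linarith
    · exact abs_five hq hH D hNL h
    · exact abs_six hq hH D h
  · unfold NoLine at hNL
    push Not at hNL
    obtain ⟨ℓ, hℓ, hP⟩ := hNL
    exact abs_line hq hH D hℓ hP (hD ℓ hℓ hP)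

end Pool.Agent.Y734.B
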